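import Pool.Agent.Lib.MP_69b2e4_nt.GH.Basic

/-! Definitions for the unconditional upper bounds of the discrete moments of `ζ'` (campaign UH).
This file is complete (NOT a task). -/

set_option autoImplicit false

namespace Pool.Agent.UH

open Complex MeasureTheory Finset Pool.Agent.GH
open scoped Real ComplexConjugate

/-- The real truncated exponential. -/
noncomputable def ExR (l : ℕ) (x : ℝ) : ℝ := ∑ i ∈ range (l + 1), x ^ i / (i.factorial : ℝ)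

/-- The truncation length of the negative weight: even, at least `(1 - lam) N`. -/
noncomputable def lm (lam : ℝ) (N : ℕ) : ℕ := 2 * ⌈(1 - lam) * N / 2⌉₊

/-- The truncation length of the positive weight: even, at least `lam N`. -/
noncomputable def lp (lam : ℝ) (N : ℕ) : ℕ := 2 * ⌈lam * N / 2⌉₊

/-- The exponent which measures the truncation errors. -/
noncomputable def cc (lam : ℝ) : ℝ := min lam (1 - lam) / 4

/-- Polynomials `∑ c(m,n) χ(m) conj (χ(n))` with real coefficients, as functions of the character: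
`m, n ∈ S`, `m, n ≤ Q`, and `∑ |c(m,n)| (m n)^{-1/2} ≤ B`. -/
def IsDP2 (S : Set ℕ) (Q B : ℝ) (g : (ℕ →*₀ ℂ) → ℂ) : Prop :=
  ∃ (F : Finset (ℕ × ℕ)) (c : ℕ × ℕ → ℝ),
    (∀ q ∈ F, q.1 ≠ 0 ∧ q.2 ≠ 0 ∧ q.1 ∈ S ∧ q.2 ∈ S ∧ (q.1 : ℝ) ≤ Q ∧ (q.2 : ℝ) ≤ Q) ∧
    ∑ q ∈ F, |c q| * ((q.1 : ℝ) * q.2) ^ (-(1 / 2) : ℝ) ≤ B ∧
    ∀ χ, g χ = ∑ q ∈ F, (c q : ℂ) * χ q.1 * conj (χ q.2)

/-- The cut-off function of the mollifier: `1` for `u ≤ 49/50`, `0` for `u ≥ 1`. -/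
noncomputable def Fm (u : ℝ) : ℝ := Real.smoothTransition (50 * (1 - u))

/-- The mollifier of length `y`, as a function of the character. -/
noncomputable def Mo (y : ℝ) (χ : ℕ →*₀ ℂ) : ℂ :=
  ∑ n ∈ Finset.Icc 1 ⌊y⌋₊, ((ArithmeticFunction.moebius n : ℤ) : ℂ) *
    (Fm (Real.log n / Real.log y) : ℂ) * χ n

/-- The length of the mollifier. -/
noncomputable def yT (T : ℝ) : ℝ := T ^ (79 / 500 : ℝ)

/-- The smoothness bound `⌊T^{1/5}⌋ + 1`. -/
noncomputable def M1 (T : ℝ) : ℕ := Mof (1 / 5) T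

/-- The function `ζ (1 - ζ M)^a`: at a zero of `ζ` it vanishes and has the derivative `ζ'`. -/
noncomputable def ff (a : ℕ) (T : ℝ) (s : ℂ) : ℂ :=
  riemannZeta s * (1 - riemannZeta s * Mo (yT T) (nC s)) ^ a

/-- A system of blocks of primes `R 0, ..., R J` with lengths `l j` and upper ends `N j`. -/
structure BS where
  T : ℝ
  J : ℕ
  R : ℕ → Finset ℕ
  l : ℕ → ℕ
  N : ℕ → ℝ

namespace BS

variable (S : BS)

/-- all primes of the blocks -/
noncomputable def P : Finset ℕ := (range (S.J + 1)).biUnion S.R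

/-- The weight: a product of truncated exponentials of `al Re ∑_{p ∈ R j} χ(p)`. -/
noncomputable def W (al : ℝ) (l' : ℕ → ℕ) (χ : ℕ →*₀ ℂ) : ℝ :=
  ∏ j ∈ range (S.J + 1), ExR (l' j) (al * (PS (S.R j) χ).re)

/-- the negative weight (approximately `|ζ|^{lam - 1}`) -/
noncomputable def Wm (lam : ℝ) (χ : ℕ →*₀ ℂ) : ℝ := S.W (lam - 1) (fun j => lm lam (S.l j)) χ

/-- the positive weight (approximately `|ζ|^{lam}`) -/
noncomputable def Wp (lam : ℝ) (χ : ℕ →*₀ ℂ) : ℝ := S.W lam (fun j => lp lam (S.l j)) χ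

end BS

/-- The numerical properties of a block system, for a large constant `C` (given in advance),
a lower bound `N0` for the lengths (given in advance) and a constant `D` (which may depend on all this,
but not on `T`). -/
structure BGood (S : BS) (lam C : ℝ) (N0 : ℕ) (D : ℝ) : Prop where
  lam_pos : 0 < lam
  lam_lt : lam < 1
  C_ge : 3 ≤ C
  D_nonneg : 0 ≤ D
  T_ge : Real.exp 1 ≤ S.T
  prime : ∀ j ≤ S.J, ∀ p ∈ S.R j, p.Prime ∧ p < M1 S.T ∧ (p : ℝ) ≤ S.N j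
  disj : ∀ i ≤ S.J, ∀ j ≤ S.J, i ≠ j → Disjoint (S.R i) (S.R j)
  N_ge : ∀ j ≤ S.J, 1 ≤ S.N j
  l_ge : ∀ j ≤ S.J, N0 ≤ S.l j
  l_big : ∀ j ≤ S.J, 2 ≤ lam * S.l j ∧ 2 ≤ (1 - lam) * S.l j
  trunc : ∑ j ∈ range (S.J + 1), (2 : ℝ)⁻¹ ^ (cc lam * S.l j) * Real.exp (C * (sR (S.R j) + 1)) ≤ 1
  len : ∑ j ∈ range (S.J + 1), ((S.l j : ℝ) * Real.log (S.N j) + 10) ≤ Real.log S.T / 4000
  inn : ∑ j ∈ range (S.J + 1), sR (S.R j) ≤ Real.log (Real.log S.T) + D
  out : ∑ p ∈ Nat.primesBelow (M1 S.T) \ S.P, 1 / (p : ℝ) ≤ D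

end Pool.Agent.UH
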