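import Pool.Agent.Lib.MP_69b2e4_nt.UH.F1

/-! TASK F2. The mollifier of the random model as an integral of Euler products. Let `y ≥ 2`, `Y = log y > 0`, `z_ξ = (1 - 2πiξ)/Y`, `M ≥ y` (as a natural number).
For `n ≥ 1`: `Fm(log n/Y) n^{-1/2} = ∫ φ(ξ) n^{-1/2 - z_ξ} dξ`, because `e^{-u} e^{2πiuξ} = n^{-z_ξ}` for `u = log n/Y ≥ 0` (`fourier_kernel`; `n^{-z} = exp(-z log n)`).
Expand the finite product: `∏_{p∈primesBelow M} (1 - X_p p^{-1/2-z}) = ∑_{U ⊆ primesBelow M} (-1)^{|U|} ∏_{p∈U} X_p p^{-1/2-z}` (`Finset.prod_one_sub...`, `Finset.prod_sub`, or `Finset.prod_add`) `= ∑_{n} μ(n) XX w n n^{-1/2-z}` over the squarefree `n` with all prime factors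
`< M` (`n = ∏_{p∈U} p`; `XX w n = ∏_{p | n} X_p` for squarefree `n`, `μ(n) = (-1)^{|U|}`). Multiply by `φ(ξ)` and integrate (finite sum, every term integrable since `‖n^{-1/2-z_ξ}‖ ≤ 1`): the result is `∑_n μ(n) XX w n n^{-1/2} Fm(log n/Y)` over the same `n`,
and the terms with `n > y` vanish (`Fm_zero`: `log n/Y ≥ 1`); the terms with `n ≤ y` which are missing in the sum over squarefree `M`-smooth numbers have `μ(n) = 0` (all `n ≤ y ≤ M` have their prime factors `≤ M`; if a prime factor equals `M` then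
`n = M = y` and `Fm = 0`). This is `Mo y (nX 0 w)` (`nX_apply`: `nX 0 w n = n^{-(1/2+0)} XX w n`). -/

set_option autoImplicit false

namespace Pool.Agent.UH

open Complex MeasureTheory Finset Pool.Agent.GH
open scoped Real ComplexConjugate

/-- the coefficient `b_p` of the Euler product with the frequency `ξ` -/
noncomputable def bx (y ξ : ℝ) (p : ℕ) : ℂ :=
  (((p : ℝ) ^ (-(1 / 2) : ℝ) : ℝ) : ℂ) * cexp (-((1 - 2 * π * ξ * I) * (Real.log p / Real.log y : ℝ)))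

private theorem F2_mul (y ξ : ℝ) {m n : ℕ} (hm : m ≠ 0) (hn : n ≠ 0) :
    bx y ξ (m * n) = bx y ξ m * bx y ξ n := by
  unfold bx
  have h1 : ((m * n : ℕ) : ℝ) ^ (-(1 / 2) : ℝ) = (m : ℝ) ^ (-(1 / 2) : ℝ) * (n : ℝ) ^ (-(1 / 2) : ℝ) := by
    rw [Nat.cast_mul, Real.mul_rpow (Nat.cast_nonneg m) (Nat.cast_nonneg n)]
  have h2 : Real.log ((m * n : ℕ) : ℝ) = Real.log m + Real.log n := by
    rw [Nat.cast_mul, Real.log_mul (Nat.cast_ne_zero.2 hm) (Nat.cast_ne_zero.2 hn)]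
  rw [h1, h2, add_div]
  push_cast
  rw [mul_add, neg_add, Complex.exp_add]
  ring

private theorem F2_one (y ξ : ℝ) : bx y ξ 1 = 1 := by
  simp [bx]

private theorem F2_prod (y ξ : ℝ) (U : Finset ℕ) (hU : ∀ p ∈ U, p ≠ 0) :
    ∏ p ∈ U, bx y ξ p = bx y ξ (∏ p ∈ U, p) := by
  induction U using Finset.induction_on with
  | empty => simp [F2_one]
  | insert p U hp ih =>
    rw [prod_insert hp, prod_insert hp, ih fun q hq => hU q (mem_insert_of_mem hq),
      F2_mul y ξ (hU p (mem_insert_self p U))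
        (prod_ne_zero_iff.2 fun q hq => hU q (mem_insert_of_mem hq))]

private theorem F2_bx (y ξ : ℝ) (n : ℕ) : bx y ξ n = (((n : ℝ) ^ (-(1 / 2) : ℝ) : ℝ) : ℂ) *
    (Real.exp (-(Real.log n / Real.log y)) : ℂ) *
      cexp (2 * π * (Real.log n / Real.log y : ℝ) * ξ * I) := by
  have h : cexp (-((1 - 2 * π * ξ * I) * (Real.log n / Real.log y : ℝ))) =
      (Real.exp (-(Real.log n / Real.log y)) : ℂ) *
        cexp (2 * π * (Real.log n / Real.log y : ℝ) * ξ * I) := by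
    rw [Complex.ofReal_exp, ← Complex.exp_add]
    congr 1
    push_cast
    ring
  unfold bx
  rw [h]
  ring

private theorem F2_int (φ : ℝ → ℂ) (hφ : Continuous φ)
    (hφi : Integrable (fun ξ : ℝ => (1 + |ξ|) ^ 8 * ‖φ ξ‖)) : Integrable φ := by
  refine Integrable.mono' hφi hφ.aestronglyMeasurable (Filter.Eventually.of_forall fun ξ => ?_)
  have h1 : (1 : ℝ) ≤ (1 + |ξ|) ^ 8 := one_le_pow₀ (by linarith [abs_nonneg ξ])
  exact le_mul_of_one_le_left (norm_nonneg _) h1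

private theorem F2_int2 (φ : ℝ → ℂ) (hφ : Continuous φ) (h : Integrable φ) (u : ℝ) :
    Integrable (fun ξ : ℝ => φ ξ * cexp (2 * π * u * ξ * I)) := by
  refine Integrable.mono' h.norm ?_ (Filter.Eventually.of_forall fun ξ => ?_)
  · exact (hφ.mul (by fun_prop)).aestronglyMeasurable
  · have h1 : (2 * π * u * ξ * I : ℂ) = ((2 * π * u * ξ : ℝ) : ℂ) * I := by push_cast; ring
    rw [norm_mul, h1, Complex.norm_exp_ofReal_mul_I, mul_one]

private theorem F2_mu (U : Finset ℕ) (hU : ∀ p ∈ U, p.Prime) :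
    (ArithmeticFunction.moebius (∏ p ∈ U, p) : ℤ) = (-1) ^ U.card := by
  rw [ArithmeticFunction.isMultiplicative_moebius.map_prod_of_prime U hU,
    Finset.prod_congr rfl fun p hp => ArithmeticFunction.moebius_apply_prime (hU p hp), prod_const]

private theorem F2_XX (w : Om) (U : Finset ℕ) (hU : ∀ p ∈ U, p.Prime) :
    XX w (∏ p ∈ U, p) = ∏ p ∈ U, X p w := by
  rw [map_prod]
  exact prod_congr rfl fun p hp => XX_prime w (hU p hp)

theorem Mo_eq (φ : ℝ → ℂ) (hφ : Continuous φ) (hφi : Integrable (fun ξ : ℝ => (1 + |ξ|) ^ 8 * ‖φ ξ‖))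
    (hF : ∀ u : ℝ, 0 ≤ u → (Fm u : ℂ) = (Real.exp (-u) : ℂ) * ∫ ξ : ℝ, φ ξ * cexp (2 * π * u * ξ * I))
    {y : ℝ} (hy : 2 ≤ y) {M : ℕ} (hM : y ≤ M) (w : Om) :
    Mo y (nX 0 w) = ∫ ξ : ℝ, φ ξ * ∏ p ∈ Nat.primesBelow M, (1 - bx y ξ p * X p w) := by
  have hL : 0 < Real.log y := Real.log_pos (by linarith)
  have hφ1 := F2_int φ hφ hφi
  have hP : ∀ U ∈ (Nat.primesBelow M).powerset, ∀ p ∈ U, p.Prime := fun U hU p hp =>
    Nat.prime_of_mem_primesBelow (mem_powerset.1 hU hp)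
  -- the integrals
  have hI : ∀ n : ℕ, n ≠ 0 → ∫ ξ : ℝ, φ ξ * bx y ξ n =
      (((n : ℝ) ^ (-(1 / 2) : ℝ) : ℝ) : ℂ) * (Fm (Real.log n / Real.log y) : ℂ) := by
    intro n hn
    have hu : 0 ≤ Real.log n / Real.log y :=
      div_nonneg (Real.log_nonneg (by exact_mod_cast Nat.one_le_iff_ne_zero.2 hn)) hL.le
    rw [hF _ hu, ← mul_assoc, ← integral_const_mul]
    refine integral_congr_ae (Filter.Eventually.of_forall fun ξ => ?_)
    show φ ξ * bx y ξ n = _
    rw [F2_bx]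
    ring
  have hII : ∀ n : ℕ, Integrable (fun ξ : ℝ => φ ξ * bx y ξ n) := by
    intro n
    have h1 := (F2_int2 φ hφ hφ1 (Real.log n / Real.log y)).const_mul
      ((((n : ℝ) ^ (-(1 / 2) : ℝ) : ℝ) : ℂ) * (Real.exp (-(Real.log n / Real.log y)) : ℂ))
    refine h1.congr (Filter.Eventually.of_forall fun ξ => ?_)
    show _ = φ ξ * bx y ξ n
    rw [F2_bx]
    ring
  -- the integrand
  have hE : ∀ ξ : ℝ, φ ξ * ∏ p ∈ Nat.primesBelow M, (1 - bx y ξ p * X p w) =
      ∑ U ∈ (Nat.primesBelow M).powerset,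
        ((((-1) ^ U.card : ℤ) : ℂ) * XX w (∏ p ∈ U, p)) * (φ ξ * bx y ξ (∏ p ∈ U, p)) := by
    intro ξ
    have h1 : ∏ p ∈ Nat.primesBelow M, (1 - bx y ξ p * X p w) =
        ∏ p ∈ Nat.primesBelow M, (1 + -(bx y ξ p * X p w)) :=
      prod_congr rfl fun p _ => sub_eq_add_neg _ _
    rw [h1, Finset.prod_one_add, mul_sum]
    refine sum_congr rfl fun U hU => ?_
    rw [prod_neg, prod_mul_distrib, F2_prod y ξ U fun p hp => (hP U hU p hp).ne_zero,
      F2_XX w U (hP U hU)]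
    push_cast
    ring
  have hS : ∫ ξ : ℝ, φ ξ * ∏ p ∈ Nat.primesBelow M, (1 - bx y ξ p * X p w) =
      ∑ U ∈ (Nat.primesBelow M).powerset, ((((-1) ^ U.card : ℤ) : ℂ) * XX w (∏ p ∈ U, p)) *
        ((((((∏ p ∈ U, p : ℕ) : ℝ) ^ (-(1 / 2) : ℝ) : ℝ)) : ℂ) *
          (Fm (Real.log ((∏ p ∈ U, p : ℕ) : ℝ) / Real.log y) : ℂ)) := by
    simp_rw [hE]
    rw [integral_finsetSum _ fun U _ => (hII _).const_mul _]
    refine sum_congr rfl fun U hU => ?_
    rw [integral_const_mul, hI _ (prod_ne_zero_iff.2 fun p hp => (hP U hU p hp).ne_zero)]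
  rw [hS]
  unfold Mo
  symm
  have hz : ∀ n : ℕ, y ≤ n → Fm (Real.log n / Real.log y) = 0 := by
    intro n hn
    refine Fm_zero ?_
    rw [le_div_iff₀ hL, one_mul]
    exact Real.log_le_log (by linarith) hn
  refine sum_bij_ne_zero (fun U _ _ => ∏ p ∈ U, p) ?_ ?_ ?_ ?_
  · intro U hU h0
    have hne : (∏ p ∈ U, p) ≠ 0 := prod_ne_zero_iff.2 fun p hp => (hP U hU p hp).ne_zero
    refine mem_Icc.2 ⟨Nat.one_le_iff_ne_zero.2 hne, Nat.le_floor ?_⟩
    by_contra h1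
    push Not at h1
    refine h0 ?_
    rw [hz _ h1.le]
    simp
  · intro U hU _ V hV _ h
    rw [← Nat.primeFactors_prod (hP U hU), ← Nat.primeFactors_prod (hP V hV)]
    exact congrArg Nat.primeFactors h
  · intro n hn h0
    have hn1 := mem_Icc.1 hn
    have hsq : Squarefree n := by
      by_contra h1
      refine h0 ?_
      rw [ArithmeticFunction.moebius_eq_zero_of_not_squarefree h1]
      simp
    have hlt : (n : ℝ) < y := by
      by_contra h1
      push Not at h1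
      refine h0 ?_
      rw [hz _ h1]
      simp
    have hmem : n.primeFactors ∈ (Nat.primesBelow M).powerset := by
      refine mem_powerset.2 fun p hp => Nat.mem_primesBelow.2 ⟨?_, Nat.prime_of_mem_primeFactors hp⟩
      have h1 : p ≤ n := Nat.le_of_mem_primeFactors hp
      have h2 : (n : ℝ) < M := hlt.trans_le hM
      exact h1.trans_lt (by exact_mod_cast h2)
    have hprod := Nat.prod_primeFactors_of_squarefree hsq
    refine ⟨n.primeFactors, hmem, ?_, hprod⟩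
    intro h1
    refine h0 ?_
    rw [hprod] at h1
    have h2 := F2_mu n.primeFactors fun p hp => Nat.prime_of_mem_primeFactors hp
    rw [hprod] at h2
    rw [h2, nX_apply 0 w (by omega)]
    have h3 : ((n : ℂ) ^ (-(1 / 2 + 0) : ℂ)) = ((((n : ℝ) ^ (-(1 / 2) : ℝ) : ℝ)) : ℂ) := by
      rw [Complex.ofReal_cpow (Nat.cast_nonneg n)]
      push_cast
      rw [add_zero]
    rw [h3]
    rw [← h1]
    ring
  · intro U hU _
    have hne : (∏ p ∈ U, p) ≠ 0 := prod_ne_zero_iff.2 fun p hp => (hP U hU p hp).ne_zero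
    have h2 := F2_mu U (hP U hU)
    have h3 : (((∏ p ∈ U, p : ℕ) : ℂ) ^ (-(1 / 2 + 0) : ℂ)) =
        (((((∏ p ∈ U, p : ℕ) : ℝ) ^ (-(1 / 2) : ℝ) : ℝ)) : ℂ) := by
      rw [Complex.ofReal_cpow (Nat.cast_nonneg _)]
      push_cast
      rw [add_zero]
    rw [nX_apply 0 w hne, h2, h3]
    ring

end Pool.Agent.UH
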