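import Pool.Agent.Lib.MP_69b2e4_nt.UH.F1
import Pool.Agent.Lib.MP_69b2e4_nt.Mg.G001
import Pool.Agent.Lib.MP_69b2e4_nt.Mg.G038

/-! TASK B2. The regularised function `GF = ((s-1)/(s+1))^{a+1} ff`, holomorphic in `Re s > -1`, and its growth. `riemannZeta₁ s = (s-1) ζ(s)` is entire (Mathlib, NumberTheory/Harmonic/ZetaAsymp: `differentiable_riemannZeta₁`, `riemannZeta_eq_inv_sub_mul`).
* `GF_diff`: `s ↦ Mo y (nC s)` is a finite sum of `n^{-s}`, `s + 1 ≠ 0`.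
* `GF_eq`: algebra: `ζ₁ ((s-1) - ζ₁ M)^a = (s-1) ζ ((s-1)(1 - ζ M))^a = (s-1)^{a+1} ff`.
* `ff_analytic`: for `Im s > 0` (so `s ≠ 1`).
* `norm_Mo_le`: `‖Mo y (nC s)‖ ≤ ∑_{n ≤ y} 1 ≤ y ≤ T` for `Re s ≥ 0`.
* `GF_growth`: first `‖ζ₁(s)/(s+1)‖ ≤ C (1+|t|)` for `1/2 ≤ Re s ≤ 50`, `t = Im s`: for `|t| ≤ 1` continuity on a compact rectangle; for `|t| ≥ 1`, `Re s ≤ 2`: `‖(s-1)/(s+1)‖ ≤ 1`, `‖ζ‖ ≤ C |t|^{1/2} ≤ C(1+|t|)` (`zeta_growth` of GH/Grow);
  for `Re s ≥ 2`: `‖ζ‖ ≤ 2` (`norm_zeta_le_two`). Then `‖GF‖ = ‖ζ₁/(s+1)‖ ‖(s-1)/(s+1) - (ζ₁/(s+1)) M‖^a ≤ C(1+|t|) (1 + C(1+|t|)T)^a ≤ C' T^a (1+|t|)^{a+1}`. -/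

set_option autoImplicit false

namespace Pool.Agent.UH

open Complex MeasureTheory Finset Pool.Agent.GH
open scoped Real ComplexConjugate

/-- The regularised function. -/
noncomputable def GF (a : ℕ) (T : ℝ) (s : ℂ) : ℂ :=
  riemannZeta₁ s * ((s - 1) - riemannZeta₁ s * Mo (yT T) (nC s)) ^ a / (s + 1) ^ (a + 1)

private theorem B2_Mo_diff (T : ℝ) : Differentiable ℂ (fun s : ℂ => Mo (yT T) (nC s)) := by
  unfold Mo
  refine Differentiable.fun_sum fun n hn => ?_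
  have hn0 : n ≠ 0 := by
    have := (Finset.mem_Icc.1 hn).1
    omega
  have hnc : (n : ℂ) ≠ 0 := by exact_mod_cast hn0
  simp only [nC_apply _ hn0]
  refine Differentiable.const_mul ?_ _
  intro s
  exact (differentiableAt_id.neg).const_cpow (Or.inl hnc)

theorem GF_diff (a : ℕ) (T : ℝ) : DifferentiableOn ℂ (GF a T) {s : ℂ | -1 < s.re} := by
  intro s hs
  apply DifferentiableAt.differentiableWithinAt
  have h1 : s + 1 ≠ 0 := by
    intro h
    have h2 := congrArg Complex.re h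
    simp at h2
    have hs2 : -1 < s.re := hs
    linarith
  unfold GF
  refine DifferentiableAt.div ?_ ?_ (pow_ne_zero _ h1)
  · refine (differentiable_riemannZeta₁ s).mul (DifferentiableAt.pow ?_ _)
    exact (differentiableAt_id.sub_const 1).sub ((differentiable_riemannZeta₁ s).mul (B2_Mo_diff T s))
  · exact (differentiableAt_id.add_const 1).pow _

theorem GF_eq (a : ℕ) (T : ℝ) {s : ℂ} (hs : s ≠ 1) (hs' : s ≠ -1) :
    GF a T s = ((s - 1) / (s + 1)) ^ (a + 1) * ff a T s := by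
  have h1 : s - 1 ≠ 0 := sub_ne_zero.2 hs
  have h2 : s + 1 ≠ 0 := by
    intro h
    exact hs' (eq_neg_of_add_eq_zero_left h)
  unfold GF ff
  rw [riemannZeta_eq_inv_sub_mul hs]
  have h3 : (s - 1) - riemannZeta₁ s * Mo (yT T) (nC s) =
      (s - 1) * (1 - (s - 1)⁻¹ * riemannZeta₁ s * Mo (yT T) (nC s)) := by
    field_simp
  rw [h3, mul_pow, div_pow, pow_succ (s - 1) a]
  field_simp

theorem ff_analytic (a : ℕ) (T : ℝ) {s : ℂ} (hs : 0 < s.im) : AnalyticAt ℂ (ff a T) s := by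
  have hopen : IsOpen {z : ℂ | 0 < z.im} := isOpen_lt continuous_const Complex.continuous_im
  have hd : DifferentiableOn ℂ (ff a T) {z : ℂ | 0 < z.im} := by
    intro z hz
    apply DifferentiableAt.differentiableWithinAt
    have hz1 : z ≠ 1 := by
      rintro rfl
      simp at hz
    have h1 := differentiableAt_riemannZeta hz1
    unfold ff
    exact h1.mul (((differentiableAt_const 1).sub (h1.mul (B2_Mo_diff T z))).pow _)
  exact hd.analyticAt (hopen.mem_nhds hs)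

theorem norm_Mo_le {T : ℝ} (hT : 1 ≤ T) {s : ℂ} (hs : 0 ≤ s.re) : ‖Mo (yT T) (nC s)‖ ≤ T := by
  have hy0 : 0 ≤ yT T := Real.rpow_nonneg (by linarith) _
  have hyT : yT T ≤ T := by
    unfold yT
    calc T ^ (79 / 500 : ℝ) ≤ T ^ (1 : ℝ) := Real.rpow_le_rpow_of_exponent_le hT (by norm_num)
      _ = T := Real.rpow_one T
  have h1 : ‖Mo (yT T) (nC s)‖ ≤ ∑ n ∈ Finset.Icc 1 ⌊yT T⌋₊, (1 : ℝ) := by
    unfold Mo
    refine norm_sum_le_of_le _ fun n hn => ?_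
    have hn0 : n ≠ 0 := by
      have := (Finset.mem_Icc.1 hn).1
      omega
    have hn1 : (1 : ℝ) ≤ n := by exact_mod_cast (Finset.mem_Icc.1 hn).1
    rw [norm_mul, norm_mul, norm_nC s hn0]
    have e1 : ‖((ArithmeticFunction.moebius n : ℤ) : ℂ)‖ ≤ 1 := by
      rw [Complex.norm_intCast]
      exact_mod_cast (ArithmeticFunction.abs_moebius_le_one (n := n))
    have e2 : ‖(Fm (Real.log n / Real.log (yT T)) : ℂ)‖ ≤ 1 := by
      rw [Complex.norm_real, Real.norm_eq_abs, abs_of_nonneg (Fm_mem _).1]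
      exact (Fm_mem _).2
    have e3 : (n : ℝ) ^ (-s.re) ≤ 1 := Real.rpow_le_one_of_one_le_of_nonpos hn1 (by linarith)
    have e3' : 0 ≤ (n : ℝ) ^ (-s.re) := Real.rpow_nonneg (by linarith) _
    have e4 := mul_le_mul (mul_le_mul e1 e2 (norm_nonneg _) (by norm_num)) e3 e3' (by norm_num)
    simpa using e4
  refine h1.trans ?_
  rw [Finset.sum_const, Nat.card_Icc, Nat.add_sub_cancel, nsmul_eq_mul, mul_one]
  exact (Nat.floor_le hy0).trans hyT

theorem norm_quot_le {s : ℂ} (hs : 0 ≤ s.re) : ‖(s - 1) / (s + 1)‖ ≤ 1 := by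
  rw [norm_div]
  apply div_le_one_of_le₀ _ (norm_nonneg _)
  rw [Complex.norm_def, Complex.norm_def]
  apply Real.sqrt_le_sqrt
  simp only [Complex.normSq_apply, Complex.sub_re, Complex.add_re, Complex.sub_im, Complex.add_im,
    Complex.one_re, Complex.one_im]
  nlinarith

private theorem B2_add_one_ge {s : ℂ} (hs : 0 ≤ s.re) : 1 ≤ ‖s + 1‖ := by
  have h1 : |(s + 1).re| ≤ ‖s + 1‖ := Complex.abs_re_le_norm _
  have h2 : (s + 1).re = s.re + 1 := by simp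
  rw [h2, abs_of_nonneg (by linarith)] at h1
  linarith

/-- the bound of `ζ₁/(s+1)` -/
private theorem B2_zeta1 : ∃ C : ℝ, 1 ≤ C ∧ ∀ s : ℂ, 1 / 2 ≤ s.re → s.re ≤ 50 →
    ‖riemannZeta₁ s / (s + 1)‖ ≤ C * (1 + |s.im|) := by
  obtain ⟨C1, hC1, hg⟩ := zeta_growth
  -- the compact rectangle
  have hK : IsCompact (Set.Icc (1 / 2 : ℝ) 50 ×ℂ Set.Icc (-1 : ℝ) 1) :=
    isCompact_Icc.reProdIm isCompact_Icc
  obtain ⟨C2, hC2⟩ := hK.exists_bound_of_continuousOn (f := riemannZeta₁)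
    differentiable_riemannZeta₁.continuous.continuousOn
  refine ⟨max (max C1 C2) 2, le_trans (by norm_num) (le_max_right _ _), ?_⟩
  intro s hs1 hs2
  set C := max (max C1 C2) 2 with hCdef
  have hC1' : C1 ≤ C := (le_max_left _ _).trans (le_max_left _ _)
  have hC2' : C2 ≤ C := (le_max_right _ _).trans (le_max_left _ _)
  have hC3 : 2 ≤ C := le_max_right _ _
  have habs : 0 ≤ |s.im| := abs_nonneg _
  have hs0 : 0 ≤ s.re := by linarith
  by_cases ht : |s.im| ≤ 1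
  · have h1 : s ∈ Set.Icc (1 / 2 : ℝ) 50 ×ℂ Set.Icc (-1 : ℝ) 1 := by
      rw [Complex.mem_reProdIm]
      exact ⟨⟨hs1, hs2⟩, abs_le.1 ht⟩
    have h2 := hC2 s h1
    rw [norm_div]
    have h3 := B2_add_one_ge hs0
    calc ‖riemannZeta₁ s‖ / ‖s + 1‖ ≤ ‖riemannZeta₁ s‖ / 1 :=
          div_le_div_of_nonneg_left (norm_nonneg _) one_pos h3
      _ = ‖riemannZeta₁ s‖ := div_one _
      _ ≤ C := h2.trans hC2'
      _ ≤ C * (1 + |s.im|) := by nlinarith
  · push Not at ht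
    have hs1' : s ≠ 1 := by
      rintro rfl
      simp at ht
      linarith
    have h1s : s - 1 ≠ 0 := sub_ne_zero.2 hs1'
    have e1 : riemannZeta₁ s = (s - 1) * riemannZeta s := by
      rw [riemannZeta_eq_inv_sub_mul hs1', ← mul_assoc, mul_inv_cancel₀ h1s, one_mul]
    have e2 : riemannZeta₁ s / (s + 1) = (s - 1) / (s + 1) * riemannZeta s := by
      rw [e1]; ring
    rw [e2, norm_mul]
    have e3 := norm_quot_le hs0
    have e4 : ‖riemannZeta s‖ ≤ C * (1 + |s.im|) := by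
      by_cases h2 : s.re ≤ 2
      · refine (hg s hs1 h2 ht.le).trans ?_
        have h3 : |s.im| ^ (1 / 2 : ℝ) ≤ |s.im| := by
          calc |s.im| ^ (1 / 2 : ℝ) ≤ |s.im| ^ (1 : ℝ) :=
                Real.rpow_le_rpow_of_exponent_le ht.le (by norm_num)
            _ = |s.im| := Real.rpow_one _
        have h4 : 0 ≤ |s.im| ^ (1 / 2 : ℝ) := Real.rpow_nonneg habs _
        have h5 : |s.im| ^ (1 / 2 : ℝ) ≤ 1 + |s.im| := by linarith
        exact mul_le_mul hC1' h5 h4 (by linarith)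
      · push Not at h2
        have h3 := norm_zeta_le_two h2.le
        nlinarith
    calc ‖(s - 1) / (s + 1)‖ * ‖riemannZeta s‖ ≤ 1 * ‖riemannZeta s‖ :=
          mul_le_mul_of_nonneg_right e3 (norm_nonneg _)
      _ = ‖riemannZeta s‖ := one_mul _
      _ ≤ _ := e4

theorem GF_growth (a : ℕ) : ∃ C : ℝ, 1 ≤ C ∧ ∀ T : ℝ, 1 ≤ T → ∀ s : ℂ, 1 / 2 ≤ s.re → s.re ≤ 50 →
    ‖GF a T s‖ ≤ C * T ^ a * (1 + |s.im|) ^ (a + 1) := by
  obtain ⟨C, hC, hb⟩ := B2_zeta1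
  refine ⟨C * (1 + C) ^ a, one_le_mul_of_one_le_of_one_le hC (one_le_pow₀ (by linarith)), ?_⟩
  intro T hT s hs1 hs2
  have hs0 : 0 ≤ s.re := by linarith
  have habs : 0 ≤ |s.im| := abs_nonneg _
  have hne : s + 1 ≠ 0 := by
    intro h
    have h1 := B2_add_one_ge hs0
    rw [h, norm_zero] at h1
    linarith
  have e1 : GF a T s = riemannZeta₁ s / (s + 1) *
      ((s - 1) / (s + 1) - riemannZeta₁ s / (s + 1) * Mo (yT T) (nC s)) ^ a := by
    unfold GF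
    have e2 : (s - 1) / (s + 1) - riemannZeta₁ s / (s + 1) * Mo (yT T) (nC s) =
        ((s - 1) - riemannZeta₁ s * Mo (yT T) (nC s)) / (s + 1) := by
      ring
    rw [e2, div_pow, pow_succ]
    field_simp
  have h1 := hb s hs1 hs2
  have h2 := norm_Mo_le hT hs0
  have h3 := norm_quot_le hs0
  have h0 : 0 ≤ C * (1 + |s.im|) := by nlinarith
  have h4 : ‖(s - 1) / (s + 1) - riemannZeta₁ s / (s + 1) * Mo (yT T) (nC s)‖ ≤
      (1 + C) * T * (1 + |s.im|) := by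
    calc _ ≤ ‖(s - 1) / (s + 1)‖ + ‖riemannZeta₁ s / (s + 1) * Mo (yT T) (nC s)‖ := norm_sub_le _ _
      _ ≤ 1 + C * (1 + |s.im|) * T := by
          rw [norm_mul]
          exact add_le_add h3 (mul_le_mul h1 h2 (norm_nonneg _) h0)
      _ ≤ (1 + C) * T * (1 + |s.im|) := by
          have : 1 ≤ T * (1 + |s.im|) := by nlinarith
          nlinarith
  rw [e1, norm_mul, norm_pow]
  calc _ ≤ (C * (1 + |s.im|)) * ((1 + C) * T * (1 + |s.im|)) ^ a := by
        apply mul_le_mul h1 (pow_le_pow_left₀ (norm_nonneg _) h4 _) (by positivity) h0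
    _ = C * (1 + C) ^ a * T ^ a * (1 + |s.im|) ^ (a + 1) := by
        rw [mul_pow, mul_pow, pow_succ]
        ring

theorem norm_quot_ge {s : ℂ} (hs : 0 ≤ s.re) (hs1 : s.re ≤ 50) (ht : 1 ≤ s.im) :
    1 / 52 ≤ ‖(s - 1) / (s + 1)‖ := by
  rw [norm_div]
  have h0 := B2_add_one_ge hs
  have h1 : 1 ≤ ‖s - 1‖ := by
    have h2 : |(s - 1).im| ≤ ‖s - 1‖ := Complex.abs_im_le_norm _
    have h3 : (s - 1).im = s.im := by simp
    rw [h3, abs_of_nonneg (by linarith)] at h2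
    linarith
  have h2 : ‖s + 1‖ ≤ ‖s - 1‖ + 2 := by
    have h3 : s + 1 = (s - 1) + 2 := by ring
    calc ‖s + 1‖ = ‖(s - 1) + 2‖ := by rw [h3]
      _ ≤ ‖s - 1‖ + ‖(2 : ℂ)‖ := norm_add_le _ _
      _ = ‖s - 1‖ + 2 := by simp
  rw [div_le_div_iff₀ (by norm_num) (by linarith)]
  linarith

/-- the derivative of `ff` at a zero of `ζ` -/
theorem deriv_ff (a : ℕ) (T : ℝ) {ρ : ℂ} (hρ : ρ ≠ 1) (h0 : riemannZeta ρ = 0) :
    ff a T ρ = 0 ∧ deriv (ff a T) ρ = deriv riemannZeta ρ := by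
  refine ⟨by unfold ff; rw [h0, zero_mul], ?_⟩
  have h1 : HasDerivAt riemannZeta (deriv riemannZeta ρ) ρ := (differentiableAt_riemannZeta hρ).hasDerivAt
  have h2 : DifferentiableAt ℂ (fun s => (1 - riemannZeta s * Mo (yT T) (nC s)) ^ a) ρ :=
    ((differentiableAt_const 1).sub ((differentiableAt_riemannZeta hρ).mul (B2_Mo_diff T ρ))).pow _
  have h3 := h1.mul h2.hasDerivAt
  have h4 : deriv (ff a T) ρ = _ := h3.deriv
  rw [h4, h0]
  simp

end Pool.Agent.UH
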