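import Pool.Agent.Lib.MP_69b2e4_nt.UH.Defs

/-! TASK F1. The cut-off function as a superposition of exponentials.
Let `G(u) = e^u · Real.smoothTransition (u + 1) · Fm u = e^u smoothTransition(u+1) smoothTransition(50(1-u))`: smooth (`Real.smoothTransition.contDiff`), supported in `[-1,1]` (`smoothTransition` vanishes on `(-∞,0]`), and for `u ≥ 0` `smoothTransition (u+1) = 1`, so `Fm u = e^{-u} G(u)`.
As a complex function it is a Schwartz function (`HasCompactSupport.toSchwartzMap` or the like: smooth with compact support); let `φ = 𝓕 G` (Fourier transform, again Schwartz: `SchwartzMap.fourierTransformCLM`/`𝓕`), and Fourier inversion (`MeasureTheory.Integrable.fourierInv_fourier_eq`, or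
`SchwartzMap` inversion) gives `G(u) = ∫ φ(ξ) e^{2πi u ξ} dξ`. Schwartz decay (`SchwartzMap.decay`, or `SchwartzMap.integrable_pow_mul`) gives the integrability of `(1+|ξ|)^8 ‖φ(ξ)‖`.
(In Mathlib `𝓕 f w = ∫ v, cexp(-2πi v w) f v`, `Real.fourier_eq'`, `Real.fourierIntegral...`; check the names in `Mathlib/Analysis/Distribution/SchwartzSpace` and `Mathlib/Analysis/Fourier/Inversion`.) -/

set_option autoImplicit false

namespace Pool.Agent.UH

open Complex MeasureTheory Finset Pool.Agent.GH
open scoped Real ComplexConjugate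

/-- the smooth function with compact support -/
private noncomputable def GG (u : ℝ) : ℂ :=
  ((Real.exp u * (Real.smoothTransition (u + 1) * Real.smoothTransition (50 * (1 - u))) : ℝ) : ℂ)

open scoped ContDiff in
private lemma GG_contDiff : ContDiff ℝ ∞ GG := by
  have h1 : ContDiff ℝ ∞ (fun u : ℝ => Real.exp u *
      (Real.smoothTransition (u + 1) * Real.smoothTransition (50 * (1 - u)))) := by
    refine Real.contDiff_exp.mul (ContDiff.mul ?_ ?_)
    · exact Real.smoothTransition.contDiff.comp (contDiff_id.add contDiff_const)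
    · exact Real.smoothTransition.contDiff.comp (contDiff_const.mul (contDiff_const.sub contDiff_id))
  exact Complex.ofRealCLM.contDiff.comp h1

private lemma GG_supp : HasCompactSupport GG := by
  refine HasCompactSupport.intro (K := Set.Icc (-1) 1) isCompact_Icc ?_
  intro u hu
  rw [Set.mem_Icc, not_and_or, not_le, not_le] at hu
  unfold GG
  rcases hu with hu | hu
  · rw [Real.smoothTransition.zero_of_nonpos (by linarith : u + 1 ≤ 0)]
    simp
  · rw [Real.smoothTransition.zero_of_nonpos (by linarith : 50 * (1 - u) ≤ 0)]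
    simp

open scoped FourierTransform SchwartzMap in
theorem fourier_kernel : ∃ φ : ℝ → ℂ, Continuous φ ∧
    Integrable (fun ξ : ℝ => (1 + |ξ|) ^ 8 * ‖φ ξ‖) ∧
    ∀ u : ℝ, 0 ≤ u → (Fm u : ℂ) = (Real.exp (-u) : ℂ) * ∫ ξ : ℝ, φ ξ * cexp (2 * π * u * ξ * I) := by
  set S : 𝓢(ℝ, ℂ) := GG_supp.toSchwartzMap GG_contDiff with hS
  have hSc : (S : ℝ → ℂ) = GG := rfl
  have hF : ((𝓕 S : 𝓢(ℝ, ℂ)) : ℝ → ℂ) = 𝓕 GG := by
    rw [SchwartzMap.fourier_coe, hSc]
  refine ⟨𝓕 GG, ?_, ?_, ?_⟩
  · rw [← hF]; exact (𝓕 S).continuous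
  · rw [← hF]
    have h1 : ∀ k : ℕ, Integrable (fun ξ : ℝ => ‖ξ‖ ^ k * ‖(𝓕 S) ξ‖) := fun k =>
      (𝓕 S).integrable_pow_mul volume k
    have h2 : (fun ξ : ℝ => (1 + |ξ|) ^ 8 * ‖(𝓕 S) ξ‖) =
        fun ξ : ℝ => ∑ k ∈ range 9, ((Nat.choose 8 k : ℕ) : ℝ) * (‖ξ‖ ^ k * ‖(𝓕 S) ξ‖) := by
      funext ξ
      rw [add_comm 1 |ξ|, add_pow, Finset.sum_mul]
      refine Finset.sum_congr rfl fun k _ => ?_
      rw [Real.norm_eq_abs]
      ring
    rw [h2]
    exact integrable_finsetSum _ fun k _ => (h1 k).const_mul _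
  · intro u hu
    have hint : Integrable (𝓕 GG) := by rw [← hF]; exact (𝓕 S).integrable
    have hint0 : Integrable GG := by rw [← hSc]; exact S.integrable
    have hinv := Continuous.fourierInv_fourier_eq (h := GG_contDiff.continuous) hint0 hint
    have h3 : GG u = ∫ ξ : ℝ, 𝓕 GG ξ * cexp (2 * π * u * ξ * I) := by
      have h4 := congrFun hinv u
      rw [← h4, Real.fourierInv_eq']
      refine integral_congr_ae (Filter.Eventually.of_forall fun ξ => ?_)
      simp only [smul_eq_mul, RCLike.inner_apply, conj_trivial]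
      rw [mul_comm]
      congr 2
      push_cast
      ring
    rw [← h3]
    unfold GG Fm
    rw [Real.smoothTransition.one_of_one_le (by linarith : 1 ≤ u + 1)]
    rw [← Complex.ofReal_mul, ← mul_assoc, ← Real.exp_add]
    simp

theorem Fm_mem (u : ℝ) : 0 ≤ Fm u ∧ Fm u ≤ 1 :=
  ⟨Real.smoothTransition.nonneg _, Real.smoothTransition.le_one _⟩

theorem Fm_one {u : ℝ} (hu : u ≤ 49 / 50) : Fm u = 1 :=
  Real.smoothTransition.one_of_one_le (by linarith)

theorem Fm_zero {u : ℝ} (hu : 1 ≤ u) : Fm u = 0 :=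
  Real.smoothTransition.zero_of_nonpos (by linarith)

end Pool.Agent.UH
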