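import Pool.Agent.Lib.MP_69b2e4_nt.Mg.G013
import Pool.Agent.Lib.MP_69b2e4_nt.Mg.G014

/-! TASK MA. All zeros with `Re ρ ≥ 1/2`. For a block `[5T/4, 5T/2]`, `T ≥ max` of the thresholds: split `Z` into the zeros with `Re ρ ≤ 1/2 + 1/log T` (`near_right`) and the others (`far_right`); `block_right` with the constant `C1 + C2`.
`right_all`: `heights` with `P ρ := 1/2 ≤ Re ρ`, `g = ‖ζ'‖^{2 lam}`, `κ = (lam+1)²`. -/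

set_option autoImplicit false

namespace Pool.Agent.UH

open Complex MeasureTheory Finset Pool.Agent.GH
open scoped Real ComplexConjugate

theorem block_right (lam : ℝ) (h0 : 0 < lam) (h1 : lam ≤ 1) : ∃ C T0 : ℝ, 1 ≤ C ∧ Real.exp 1 ≤ T0 ∧
    ∀ (T : ℝ) (Z : Finset ℂ), T0 ≤ T →
    (∀ ρ ∈ Z, riemannZeta ρ = 0 ∧ 1 / 2 ≤ ρ.re ∧ ρ.re < 1 ∧ 5 * T / 4 ≤ ρ.im ∧ ρ.im ≤ 5 * T / 2) →
    ∑ ρ ∈ Z, ‖deriv riemannZeta ρ‖ ^ (2 * lam) ≤ C * (T * Real.log T ^ ((lam + 1) ^ 2)) := by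
  classical
  obtain ⟨C1, T1, hC1, hT1, H1⟩ := near_right lam h0 h1
  obtain ⟨C2, T2, hC2, hT2, H2⟩ := far_right lam h0 h1
  refine ⟨C1 + C2, max T1 T2, by linarith, hT1.trans (le_max_left _ _), ?_⟩
  intro T Z hT hZ
  have e1 := H1 T (Z.filter fun ρ => ρ.re ≤ 1 / 2 + 1 / Real.log T) ((le_max_left _ _).trans hT)
    (fun ρ hρ => by
      obtain ⟨a, b⟩ := mem_filter.1 hρ
      obtain ⟨c1, c2, c3, c4, c5⟩ := hZ ρ a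
      exact ⟨c1, c2, b, c4, c5⟩)
  have e2 := H2 T (Z.filter fun ρ => ¬ ρ.re ≤ 1 / 2 + 1 / Real.log T) ((le_max_right _ _).trans hT)
    (fun ρ hρ => by
      obtain ⟨a, b⟩ := mem_filter.1 hρ
      obtain ⟨c1, c2, c3, c4, c5⟩ := hZ ρ a
      exact ⟨c1, not_le.1 b, c3, c4, c5⟩)
  rw [← sum_filter_add_sum_filter_not Z (fun ρ => ρ.re ≤ 1 / 2 + 1 / Real.log T), add_mul]
  exact add_le_add e1 e2

theorem right_all (lam : ℝ) (h0 : 0 < lam) (h1 : lam ≤ 1) : ∃ C : ℝ, 1 ≤ C ∧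
    ∀ (T : ℝ) (Z : Finset ℂ), 2 ≤ T →
    (∀ ρ ∈ Z, 1 / 2 ≤ ρ.re ∧ riemannZeta ρ = 0 ∧ 0 < ρ.re ∧ ρ.re < 1 ∧ 0 < ρ.im ∧ ρ.im ≤ T) →
    ∑ ρ ∈ Z, ‖deriv riemannZeta ρ‖ ^ (2 * lam) ≤ C * (T * Real.log T ^ ((lam + 1) ^ 2)) := by
  obtain ⟨C, T0, hC, hT0, H⟩ := block_right lam h0 h1
  exact heights (g := fun ρ => ‖deriv riemannZeta ρ‖ ^ (2 * lam)) (P := fun ρ => 1 / 2 ≤ ρ.re)
    (fun ρ => Real.rpow_nonneg (norm_nonneg _) _) (sq_nonneg (lam + 1)) (by linarith : (0 : ℝ) ≤ C) hT0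
    (fun T Z hT hZ => H T Z hT fun ρ hρ =>
      ⟨(hZ ρ hρ).2.1, (hZ ρ hρ).1, (hZ ρ hρ).2.2.2.1, (hZ ρ hρ).2.2.2.2.1, (hZ ρ hρ).2.2.2.2.2⟩)

end Pool.Agent.UH
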