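import Pool.Agent.Lib.MP_69b2e4_nt.Mg.G012
import Pool.Agent.Lib.MP_69b2e4_nt.Mg.G004

/-! TASK Z3. Zeros to the right at distance more than `1/L`, with the factor `T^{q(β-1/2)}`; here `lam ≤ 1/8` and `a = 7` (`(1+7) lam ≤ 1`). `L = log T`, `q = 2 lam`, `δ = 1/(8L)`, so `T^δ = e^{1/8}`.
A zero lies in the row `i = ⌊8L(Re ρ - 1/2)⌋ ≥ 8`: `σ0 = 1/2 + iδ ≤ Re ρ ≤ σ0 + δ`, `i δ < 1/2`. `row` with `f = ff 7 T` (`ff_analytic`; `deriv_ff`: `ff 7 T ρ = 0`, `deriv (ff 7 T) ρ = ζ'(ρ)` at a zero `ρ ≠ 1` of `ζ`), `A = 5T/4`, `B = 5T/2`, `4δ ≤ 1`;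
for `x ∈ [σ0-3δ, σ0+4δ] ⊆ [1/2, 50]` `offline` gives `∫ ‖ff‖^q ≤ C T L^{lam²} T^{-(1029/1000) q (x-1/2)} ≤ C T L^{lam²} e^{-(1029/8000) q (i-3)}` (`7 · 147/1000 = 1029/1000`). So the row contributes (without the factor) at most `C' δ^{-q-1} T L^{lam²} e^{-(1029/8000) q (i-3)}`, and with
`T^{q(Re ρ - 1/2)} ≤ T^{q(i+1)δ} = e^{q(i+1)/8}`: `≤ C'' L^{q+1} T L^{lam²} e^{-(29/8000) q i}` (`C''` contains `e^{q/8 + 3·1029q/8000}`). Sum over `i ≥ 8` (geometric series, ratio `e^{-29q/8000} < 1`, depends on `lam`). -/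

set_option autoImplicit false

namespace Pool.Agent.UH

open Complex MeasureTheory Finset Pool.Agent.GH
open scoped Real ComplexConjugate

theorem far_weighted (lam : ℝ) (h0 : 0 < lam) (h1 : lam ≤ 1 / 8) : ∃ C T0 : ℝ, 1 ≤ C ∧
    Real.exp 1 ≤ T0 ∧ ∀ (T : ℝ) (Z : Finset ℂ), T0 ≤ T →
    (∀ ρ ∈ Z, riemannZeta ρ = 0 ∧ 1 / 2 + 1 / Real.log T < ρ.re ∧ ρ.re < 1 ∧
      5 * T / 4 ≤ ρ.im ∧ ρ.im ≤ 5 * T / 2) →
    ∑ ρ ∈ Z, (T ^ (ρ.re - 1 / 2) * ‖deriv riemannZeta ρ‖) ^ (2 * lam) ≤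
      C * (T * Real.log T ^ ((lam + 1) ^ 2)) := by
  have hq : 0 < 2 * lam := by linarith
  obtain ⟨Cr, hCr1, hCr⟩ := row hq
  obtain ⟨Co, T0, hCo1, hT0, hCo⟩ := offline lam 7 h0 (by norm_num; linarith)
  set q : ℝ := 2 * lam with hqdef
  set r : ℝ := Real.exp (-(29 * q / 8000)) with hr
  have hr0 : 0 < r := Real.exp_pos _
  have hr1 : r < 1 := by
    rw [hr, ← Real.exp_zero]
    exact Real.exp_lt_exp.2 (by linarith)
  set K : ℝ := 7 * Cr * Co * 8 ^ (q + 1) * Real.exp (4087 * q / 8000) with hK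
  have hK0 : 0 < K := by positivity
  refine ⟨max 1 (K * (1 - r)⁻¹), T0, le_max_left _ _, hT0, ?_⟩
  intro T Z hT hZ
  have hTe : Real.exp 1 ≤ T := hT0.trans hT
  have hT1 : 1 ≤ T := le_trans (Real.one_le_exp (by norm_num)) hTe
  have hTpos : 0 < T := by linarith
  have hL1 : 1 ≤ Real.log T := by
    rw [Real.le_log_iff_exp_le hTpos]
    exact hTe
  set L : ℝ := Real.log T with hL
  have hLpos : 0 < L := by linarith
  set δ : ℝ := 1 / (8 * L) with hδdef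
  have hδ : 0 < δ := by positivity
  have hδL : δ * (8 * L) = 1 := by
    rw [hδdef]
    field_simp
  have hδ8 : 8 * δ ≤ 1 := by nlinarith
  have hexp : ∀ x : ℝ, T ^ x = Real.exp (L * x) := fun x => by
    rw [Real.rpow_def_of_pos hTpos]
  have hLδ : L * δ = 1 / 8 := by linarith
  -- the row estimate
  have hrow : ∀ i : ℕ, 8 ≤ i → (i : ℝ) * δ ≤ 1 / 2 → ∀ Z' : Finset ℂ,
      (∀ ρ ∈ Z', riemannZeta ρ = 0 ∧ 1 / 2 + i * δ ≤ ρ.re ∧ ρ.re ≤ 1 / 2 + i * δ + δ ∧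
        5 * T / 4 ≤ ρ.im ∧ ρ.im ≤ 5 * T / 2) →
      ∑ ρ ∈ Z', ‖deriv riemannZeta ρ‖ ^ q ≤
        7 * Cr * Co * δ ^ (-q - 1) * (T * L ^ (lam ^ 2)) *
          Real.exp (-(1029 / 8000 * q * ((i : ℝ) - 3))) := by
    intro i hi hiδ Z' hZ'
    have hi8 : (8 : ℝ) ≤ i := by exact_mod_cast hi
    have hρ1 : ∀ ρ ∈ Z', ρ ≠ 1 := by
      intro ρ hρ h
      obtain ⟨-, -, -, h4, -⟩ := hZ' ρ hρ
      rw [h, Complex.one_im] at h4
      linarith
    have h1 := hCr (ff 7 T) (1 / 2 + i * δ) δ (5 * T / 4) (5 * T / 2) Z' hδ (by linarith)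
      (fun s hs => ff_analytic 7 T hs)
      (fun ρ hρ => ⟨(deriv_ff 7 T (hρ1 ρ hρ) (hZ' ρ hρ).1).1, (hZ' ρ hρ).2⟩)
    have h2 : ∑ ρ ∈ Z', ENNReal.ofReal (‖deriv (ff 7 T) ρ‖ ^ q) =
        ENNReal.ofReal (∑ ρ ∈ Z', ‖deriv riemannZeta ρ‖ ^ q) := by
      rw [ENNReal.ofReal_sum_of_nonneg (fun ρ _ => by positivity)]
      refine Finset.sum_congr rfl fun ρ hρ => ?_
      rw [(deriv_ff 7 T (hρ1 ρ hρ) (hZ' ρ hρ).1).2]
    rw [h2] at h1
    set E : ℝ := Co * (T * L ^ (lam ^ 2)) * Real.exp (-(1029 / 8000 * q * ((i : ℝ) - 3))) with hE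
    have hE0 : 0 ≤ E := by positivity
    have h3 : ∀ x ∈ Set.Icc (1 / 2 + (i : ℝ) * δ - 3 * δ) (1 / 2 + (i : ℝ) * δ + 4 * δ),
        ∫⁻ y in Set.Icc (5 * T / 4 - 4 * δ) (5 * T / 2 + 4 * δ),
          ENNReal.ofReal (‖ff 7 T (x + y * I)‖ ^ q) ≤ ENNReal.ofReal E := by
      intro x hx
      rw [Set.mem_Icc] at hx
      have hx1 : 1 / 2 + ((i : ℝ) - 3) * δ ≤ x := by linarith [hx.1]
      have hx0 : 1 / 2 ≤ x := by nlinarith
      have hx50 : x ≤ 50 := by linarith [hx.2]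
      have h4 := hCo T hT x hx0 hx50
      have h5 : Set.Icc (5 * T / 4 - 4 * δ) (5 * T / 2 + 4 * δ) ⊆
          Set.Icc (5 * T / 4 - 1) (5 * T / 2 + 1) :=
        Set.Icc_subset_Icc (by linarith) (by linarith)
      refine (lintegral_mono_set h5).trans (h4.trans ?_)
      refine ENNReal.ofReal_le_ofReal ?_
      rw [hE]
      refine mul_le_mul_of_nonneg_left ?_ (by positivity)
      rw [hexp]
      refine Real.exp_le_exp.2 ?_
      have h6 : ((i : ℝ) - 3) / 8 ≤ L * (x - 1 / 2) := by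
        have h7 : L * (((i : ℝ) - 3) * δ) ≤ L * (x - 1 / 2) :=
          mul_le_mul_of_nonneg_left (by linarith) hLpos.le
        have h8 : L * (((i : ℝ) - 3) * δ) = ((i : ℝ) - 3) / 8 := by
          calc L * (((i : ℝ) - 3) * δ) = (L * δ) * ((i : ℝ) - 3) := by ring
            _ = ((i : ℝ) - 3) / 8 := by rw [hLδ]; ring
        linarith
      have h7 : 1029 / 1000 * q * (((i : ℝ) - 3) / 8) ≤ 1029 / 1000 * q * (L * (x - 1 / 2)) :=
        mul_le_mul_of_nonneg_left h6 (by positivity)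
      have h8 : L * -(2 * lam * ((7 : ℕ) : ℝ) * (147 / 1000) * (x - 1 / 2)) =
          -(1029 / 1000 * q * (L * (x - 1 / 2))) := by
        rw [hqdef]
        push_cast
        ring
      rw [h8]
      linarith
    have h4 : ∫⁻ x in Set.Icc (1 / 2 + (i : ℝ) * δ - 3 * δ) (1 / 2 + (i : ℝ) * δ + 4 * δ),
        ∫⁻ y in Set.Icc (5 * T / 4 - 4 * δ) (5 * T / 2 + 4 * δ),
          ENNReal.ofReal (‖ff 7 T (x + y * I)‖ ^ q) ≤ ENNReal.ofReal E * ENNReal.ofReal (7 * δ) := by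
      refine (setLIntegral_mono' measurableSet_Icc h3).trans (le_of_eq ?_)
      rw [setLIntegral_const, Real.volume_Icc]
      congr 2
      ring
    have h5 : ENNReal.ofReal (∑ ρ ∈ Z', ‖deriv riemannZeta ρ‖ ^ q) ≤
        ENNReal.ofReal (Cr * δ ^ (-q - 2) * (E * (7 * δ))) := by
      rw [ENNReal.ofReal_mul (by positivity : 0 ≤ Cr * δ ^ (-q - 2)), ENNReal.ofReal_mul hE0]
      refine h1.trans ?_
      gcongr
    have h6 := (ENNReal.ofReal_le_ofReal_iff (by positivity)).1 h5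
    refine h6.trans (le_of_eq ?_)
    have h7 : δ ^ (-q - 2) * δ = δ ^ (-q - 1) := by
      rw [show (-q - 1 : ℝ) = (-q - 2) + 1 by ring, Real.rpow_add_one hδ.ne']
    rw [hE, ← h7]
    ring
  -- the rows
  classical
  set ix : ℂ → ℕ := fun ρ => ⌊8 * L * (ρ.re - 1 / 2)⌋₊ with hix
  have hixle : ∀ ρ ∈ Z, 8 ≤ ix ρ ∧ (ix ρ : ℝ) * δ ≤ ρ.re - 1 / 2 ∧
      ρ.re - 1 / 2 ≤ ((ix ρ : ℝ) + 1) * δ := by
    intro ρ hρ
    obtain ⟨-, h2, -, -, -⟩ := hZ ρ hρ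
    have h3 : 8 ≤ 8 * L * (ρ.re - 1 / 2) := by
      have h4 : 1 / L < ρ.re - 1 / 2 := by linarith
      rw [div_lt_iff₀ hLpos] at h4
      linarith
    have h5 : (ix ρ : ℝ) ≤ 8 * L * (ρ.re - 1 / 2) := Nat.floor_le (by linarith)
    have h6 : 8 * L * (ρ.re - 1 / 2) < (ix ρ : ℝ) + 1 := Nat.lt_floor_add_one _
    refine ⟨?_, ?_, ?_⟩
    · exact Nat.le_floor (by exact_mod_cast h3)
    · have h7 := mul_le_mul_of_nonneg_right h5 hδ.le
      have h8 : 8 * L * (ρ.re - 1 / 2) * δ = ρ.re - 1 / 2 := by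
        calc 8 * L * (ρ.re - 1 / 2) * δ = (δ * (8 * L)) * (ρ.re - 1 / 2) := by ring
          _ = ρ.re - 1 / 2 := by rw [hδL, one_mul]
      linarith
    · have h7 := mul_le_mul_of_nonneg_right h6.le hδ.le
      have h8 : 8 * L * (ρ.re - 1 / 2) * δ = ρ.re - 1 / 2 := by
        calc 8 * L * (ρ.re - 1 / 2) * δ = (δ * (8 * L)) * (ρ.re - 1 / 2) := by ring
          _ = ρ.re - 1 / 2 := by rw [hδL, one_mul]
      linarith
  set R : Finset ℕ := Z.image ix with hR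
  have hsum : ∑ ρ ∈ Z, (T ^ (ρ.re - 1 / 2) * ‖deriv riemannZeta ρ‖) ^ q =
      ∑ i ∈ R, ∑ ρ ∈ Z.filter (fun ρ => ix ρ = i),
        (T ^ (ρ.re - 1 / 2) * ‖deriv riemannZeta ρ‖) ^ q := by
    rw [Finset.sum_fiberwise_of_maps_to]
    intro ρ hρ
    exact Finset.mem_image_of_mem _ hρ
  have hδq : δ ^ (-q - 1) = 8 ^ (q + 1) * L ^ (q + 1) := by
    rw [hδdef, one_div, Real.inv_rpow (by positivity), ← Real.rpow_neg (by positivity),
      show -(-q - 1) = q + 1 by ring, Real.mul_rpow (by norm_num) hLpos.le]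
  have hfib : ∀ i ∈ R, ∑ ρ ∈ Z.filter (fun ρ => ix ρ = i),
      (T ^ (ρ.re - 1 / 2) * ‖deriv riemannZeta ρ‖) ^ q ≤
        K * (T * L ^ ((lam + 1) ^ 2)) * r ^ i := by
    intro i hi
    rw [hR, Finset.mem_image] at hi
    obtain ⟨ρ0, hρ0, hρi⟩ := hi
    obtain ⟨hi8, hi1, hi2⟩ := hixle ρ0 hρ0
    rw [hρi] at hi8 hi1 hi2
    have hiδ : (i : ℝ) * δ ≤ 1 / 2 := by
      have := (hZ ρ0 hρ0).2.2.1
      linarith
    have h1 := hrow i hi8 hiδ (Z.filter (fun ρ => ix ρ = i)) (by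
      intro ρ hρ
      rw [Finset.mem_filter] at hρ
      obtain ⟨h3, h4⟩ := hρ
      obtain ⟨h5, h6, h7, h8, h9⟩ := hZ ρ h3
      obtain ⟨h10, h11, h12⟩ := hixle ρ h3
      rw [h4] at h11 h12
      exact ⟨h5, by linarith, by linarith, h8, h9⟩)
    have h2 : ∑ ρ ∈ Z.filter (fun ρ => ix ρ = i), (T ^ (ρ.re - 1 / 2) * ‖deriv riemannZeta ρ‖) ^ q ≤
        Real.exp (q * ((i : ℝ) + 1) / 8) *
          ∑ ρ ∈ Z.filter (fun ρ => ix ρ = i), ‖deriv riemannZeta ρ‖ ^ q := by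
      rw [Finset.mul_sum]
      refine Finset.sum_le_sum fun ρ hρ => ?_
      rw [Finset.mem_filter] at hρ
      obtain ⟨h3, h4⟩ := hρ
      obtain ⟨h10, h11, h12⟩ := hixle ρ h3
      rw [h4] at h11 h12
      rw [Real.mul_rpow (by positivity) (norm_nonneg _)]
      refine mul_le_mul_of_nonneg_right ?_ (by positivity)
      rw [hexp, ← Real.exp_mul]
      refine Real.exp_le_exp.2 ?_
      have h5 : L * (ρ.re - 1 / 2) ≤ ((i : ℝ) + 1) / 8 := by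
        have h6 := mul_le_mul_of_nonneg_left h12 hLpos.le
        have h7 : L * (((i : ℝ) + 1) * δ) = ((i : ℝ) + 1) / 8 := by
          calc L * (((i : ℝ) + 1) * δ) = (L * δ) * ((i : ℝ) + 1) := by ring
            _ = ((i : ℝ) + 1) / 8 := by rw [hLδ]; ring
        linarith
      have h6 := mul_le_mul_of_nonneg_right h5 hq.le
      linarith
    refine h2.trans ((mul_le_mul_of_nonneg_left h1 (Real.exp_pos _).le).trans (le_of_eq ?_))
    have h3 : L ^ ((lam + 1) ^ 2) = L ^ (q + 1) * L ^ (lam ^ 2) := by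
      rw [← Real.rpow_add hLpos]
      congr 1
      rw [hqdef]
      ring
    have h4 : r ^ i = Real.exp (-(29 * q / 8000) * i) := by
      rw [hr, ← Real.exp_nat_mul]
      congr 1
      ring
    have h5 : Real.exp (q * ((i : ℝ) + 1) / 8) * Real.exp (-(1029 / 8000 * q * ((i : ℝ) - 3))) =
        Real.exp (4087 * q / 8000) * Real.exp (-(29 * q / 8000) * i) := by
      rw [← Real.exp_add, ← Real.exp_add]
      congr 1
      ring
    rw [h3, h4, hδq, hK]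
    calc Real.exp (q * ((i : ℝ) + 1) / 8) * (7 * Cr * Co * (8 ^ (q + 1) * L ^ (q + 1)) *
          (T * L ^ (lam ^ 2)) * Real.exp (-(1029 / 8000 * q * ((i : ℝ) - 3))))
        = 7 * Cr * Co * (8 ^ (q + 1) * L ^ (q + 1)) * (T * L ^ (lam ^ 2)) *
          (Real.exp (q * ((i : ℝ) + 1) / 8) * Real.exp (-(1029 / 8000 * q * ((i : ℝ) - 3)))) := by ring
      _ = _ := by rw [h5]; ring
  rw [hsum]
  refine (Finset.sum_le_sum hfib).trans ?_
  rw [← Finset.mul_sum]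
  have hgeo : ∑ i ∈ R, r ^ i ≤ (1 - r)⁻¹ := by
    have h1 := (summable_geometric_of_lt_one hr0.le hr1).sum_le_tsum R (fun i _ => by positivity)
    rwa [tsum_geometric_of_lt_one hr0.le hr1] at h1
  have hX0 : 0 ≤ T * L ^ ((lam + 1) ^ 2) := by positivity
  calc K * (T * L ^ ((lam + 1) ^ 2)) * ∑ i ∈ R, r ^ i
      ≤ K * (T * L ^ ((lam + 1) ^ 2)) * (1 - r)⁻¹ := by gcongr
    _ = K * (1 - r)⁻¹ * (T * L ^ ((lam + 1) ^ 2)) := by ring
    _ ≤ max 1 (K * (1 - r)⁻¹) * (T * L ^ ((lam + 1) ^ 2)) :=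
        mul_le_mul_of_nonneg_right (le_max_right _ _) hX0

end Pool.Agent.UH
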