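import Pool.Agent.Lib.MP_69b2e4_nt.Mg.G013
import Pool.Agent.Lib.MP_69b2e4_nt.UH.Z3
import Pool.Agent.Lib.MP_69b2e4_nt.Mg.G014
import Pool.Agent.Lib.MP_69b2e4_nt.Mg.G002

/-! TASK MB. All zeros with `Re ρ ≤ 1/2`, for `lam ≤ 1/8`. `q = 2 lam`, `L = log T`. In a block `[5T/4, 5T/2]`, `T ≥ e`: for `ρ ∈ Z` put `ρ1 = 1 - conj ρ` (`Re ρ1 = 1 - Re ρ ∈ [1/2, 1)`, `Im ρ1 = Im ρ`, `ζ(ρ1) = 0`). `deriv_left`: `‖ζ'(ρ)‖ ≤ C (Im ρ)^{1/2-Re ρ} ‖ζ'(ρ1)‖`, and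
`(Im ρ)^{1/2-Re ρ} ≤ (5T/2)^{Re ρ1 - 1/2} ≤ 2 T^{Re ρ1 - 1/2}` (`0 ≤ Re ρ1 - 1/2 ≤ 1/2`, `(5/2)^{1/2} ≤ 2`). So `‖ζ'(ρ)‖^q ≤ (2C)^q (T^{Re ρ1 - 1/2} ‖ζ'(ρ1)‖)^q`. The map `ρ ↦ ρ1` is injective. Sum over the `ρ1` with `Re ρ1 ≤ 1/2 + 1/L`: `T^{Re ρ1-1/2} ≤ e`, `near_right`;
over the others: `far_weighted`. Then `heights` with `P ρ := Re ρ ≤ 1/2`, `g = ‖ζ'‖^q`, `κ = (lam+1)²`. -/

set_option autoImplicit false

namespace Pool.Agent.UH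

open Complex MeasureTheory Finset Pool.Agent.GH
open scoped Real ComplexConjugate

private theorem MB_inj : Function.Injective (fun ρ : ℂ => 1 - conj ρ) := by
  intro x y h
  have h1 : conj x = conj y := by
    have h2 : (1 : ℂ) - conj x = 1 - conj y := h
    linear_combination -h2
  exact (starRingEnd ℂ).injective h1

private theorem MB_block (lam : ℝ) (h0 : 0 < lam) (h1 : lam ≤ 1 / 8) : ∃ C T0 : ℝ, 0 ≤ C ∧ Real.exp 1 ≤ T0 ∧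
    ∀ (T : ℝ) (Z : Finset ℂ), T0 ≤ T →
    (∀ ρ ∈ Z, ρ.re ≤ 1 / 2 ∧ riemannZeta ρ = 0 ∧ 0 < ρ.re ∧ ρ.re < 1 ∧ 5 * T / 4 ≤ ρ.im ∧ ρ.im ≤ 5 * T / 2) →
    ∑ ρ ∈ Z, ‖deriv riemannZeta ρ‖ ^ (2 * lam) ≤ C * (T * Real.log T ^ ((lam + 1) ^ 2)) := by
  obtain ⟨C1, T1, hC1, hT1, hnear⟩ := near_right lam h0 (by linarith)
  obtain ⟨C2, T2, hC2, hT2, hfar⟩ := far_weighted lam h0 h1
  obtain ⟨C3, hC3, hleft⟩ := deriv_left
  refine ⟨(3 * C3) ^ (2 * lam) * ((Real.exp 1) ^ (2 * lam) * C1 + C2), max T1 T2, by positivity,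
    hT1.trans (le_max_left _ _), ?_⟩
  intro T Z hT hZ
  have hTT1 : T1 ≤ T := (le_max_left _ _).trans hT
  have hTT2 : T2 ≤ T := (le_max_right _ _).trans hT
  have he : Real.exp 1 ≤ T := hT1.trans hTT1
  have he1 : (1 : ℝ) < Real.exp 1 := by
    have := Real.add_one_lt_exp (x := 1) (by norm_num)
    linarith
  have hTpos : 0 < T := by linarith
  have hT1' : 1 < T := by linarith
  have hLpos : 0 < Real.log T := Real.log_pos hT1'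
  have hq : 0 < 2 * lam := by linarith
  set h : ℂ → ℝ := fun ρ => (T ^ (ρ.re - 1 / 2) * ‖deriv riemannZeta ρ‖) ^ (2 * lam) with hh
  have hh0 : ∀ ρ, 0 ≤ h ρ := fun ρ => by positivity
  -- properties of the reflected zeros
  have href : ∀ ρ ∈ Z, riemannZeta (1 - conj ρ) = 0 ∧ 1 / 2 ≤ (1 - conj ρ).re ∧ (1 - conj ρ).re < 1 ∧
      5 * T / 4 ≤ (1 - conj ρ).im ∧ (1 - conj ρ).im ≤ 5 * T / 2 ∧
      ‖deriv riemannZeta ρ‖ ^ (2 * lam) ≤ (3 * C3) ^ (2 * lam) * h (1 - conj ρ) := by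
    intro ρ hρ
    obtain ⟨a1, a2, a3, a4, a5, a6⟩ := hZ ρ hρ
    have him1 : 1 ≤ ρ.im := by linarith
    obtain ⟨b1, b2⟩ := hleft ρ a2 a3 a1 him1
    have hre : (1 - conj ρ).re = 1 - ρ.re := by simp
    have him : (1 - conj ρ).im = ρ.im := by simp
    refine ⟨b1, by rw [hre]; linarith, by rw [hre]; linarith, by rw [him]; exact a5, by rw [him]; exact a6, ?_⟩
    have hx0 : 0 ≤ 1 / 2 - ρ.re := by linarith
    have hx1 : 1 / 2 - ρ.re ≤ 1 := by linarith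
    have c1 : ρ.im ^ (1 / 2 - ρ.re) ≤ 3 * T ^ ((1 - conj ρ).re - 1 / 2) := by
      have e1 : (1 - conj ρ).re - 1 / 2 = 1 / 2 - ρ.re := by rw [hre]; ring
      rw [e1]
      calc ρ.im ^ (1 / 2 - ρ.re) ≤ (5 / 2 * T) ^ (1 / 2 - ρ.re) :=
            Real.rpow_le_rpow (by linarith) (by linarith) hx0
        _ = (5 / 2 : ℝ) ^ (1 / 2 - ρ.re) * T ^ (1 / 2 - ρ.re) := Real.mul_rpow (by norm_num) hTpos.le
        _ ≤ 3 * T ^ (1 / 2 - ρ.re) := by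
            apply mul_le_mul_of_nonneg_right _ (by positivity)
            calc (5 / 2 : ℝ) ^ (1 / 2 - ρ.re) ≤ (5 / 2 : ℝ) ^ (1 : ℝ) :=
                  Real.rpow_le_rpow_of_exponent_le (by norm_num) hx1
              _ ≤ 3 := by rw [Real.rpow_one]; norm_num
    have c2 : ‖deriv riemannZeta ρ‖ ≤
        (3 * C3) * (T ^ ((1 - conj ρ).re - 1 / 2) * ‖deriv riemannZeta (1 - conj ρ)‖) := by
      calc ‖deriv riemannZeta ρ‖ ≤ C3 * ρ.im ^ (1 / 2 - ρ.re) * ‖deriv riemannZeta (1 - conj ρ)‖ := b2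
        _ ≤ C3 * (3 * T ^ ((1 - conj ρ).re - 1 / 2)) * ‖deriv riemannZeta (1 - conj ρ)‖ := by
            apply mul_le_mul_of_nonneg_right _ (norm_nonneg _)
            apply mul_le_mul_of_nonneg_left c1 (by linarith)
        _ = _ := by ring
    calc ‖deriv riemannZeta ρ‖ ^ (2 * lam)
        ≤ ((3 * C3) * (T ^ ((1 - conj ρ).re - 1 / 2) * ‖deriv riemannZeta (1 - conj ρ)‖)) ^ (2 * lam) :=
          Real.rpow_le_rpow (norm_nonneg _) c2 hq.le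
      _ = (3 * C3) ^ (2 * lam) * h (1 - conj ρ) := by
          rw [Real.mul_rpow (by positivity) (by positivity)]
  -- the near part
  have hbound : ∀ W : Finset ℂ, (∀ ρ ∈ W, riemannZeta ρ = 0 ∧ 1 / 2 ≤ ρ.re ∧ ρ.re < 1 ∧
      5 * T / 4 ≤ ρ.im ∧ ρ.im ≤ 5 * T / 2) →
      ∑ ρ ∈ W, h ρ ≤ ((Real.exp 1) ^ (2 * lam) * C1 + C2) * (T * Real.log T ^ ((lam + 1) ^ 2)) := by
    intro W hW
    rw [← Finset.sum_filter_add_sum_filter_not W (fun ρ => ρ.re ≤ 1 / 2 + 1 / Real.log T), add_mul]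
    apply add_le_add
    · have d1 : ∀ ρ ∈ W.filter (fun ρ => ρ.re ≤ 1 / 2 + 1 / Real.log T),
          h ρ ≤ (Real.exp 1) ^ (2 * lam) * ‖deriv riemannZeta ρ‖ ^ (2 * lam) := by
        intro ρ hρ
        have hρ2 := (Finset.mem_filter.1 hρ).2
        have e1 : T ^ (ρ.re - 1 / 2) ≤ Real.exp 1 := by
          calc T ^ (ρ.re - 1 / 2) ≤ T ^ (1 / Real.log T) :=
                Real.rpow_le_rpow_of_exponent_le hT1'.le (by linarith)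
            _ = Real.exp 1 := by
                rw [Real.rpow_def_of_pos hTpos]
                congr 1
                field_simp
        rw [hh, ← Real.mul_rpow (by positivity) (norm_nonneg _)]
        exact Real.rpow_le_rpow (by positivity) (mul_le_mul_of_nonneg_right e1 (norm_nonneg _)) hq.le
      calc _ ≤ ∑ ρ ∈ W.filter (fun ρ => ρ.re ≤ 1 / 2 + 1 / Real.log T),
            (Real.exp 1) ^ (2 * lam) * ‖deriv riemannZeta ρ‖ ^ (2 * lam) := Finset.sum_le_sum d1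
        _ = (Real.exp 1) ^ (2 * lam) * ∑ ρ ∈ W.filter (fun ρ => ρ.re ≤ 1 / 2 + 1 / Real.log T),
            ‖deriv riemannZeta ρ‖ ^ (2 * lam) := by rw [Finset.mul_sum]
        _ ≤ (Real.exp 1) ^ (2 * lam) * (C1 * (T * Real.log T ^ ((lam + 1) ^ 2))) := by
            apply mul_le_mul_of_nonneg_left _ (by positivity)
            apply hnear T _ hTT1
            intro ρ hρ
            obtain ⟨f1, f2⟩ := Finset.mem_filter.1 hρ
            obtain ⟨g1, g2, g3, g4, g5⟩ := hW ρ f1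
            exact ⟨g1, g2, f2, g4, g5⟩
        _ = _ := by ring
    · apply hfar T _ hTT2
      intro ρ hρ
      obtain ⟨f1, f2⟩ := Finset.mem_filter.1 hρ
      obtain ⟨g1, g2, g3, g4, g5⟩ := hW ρ f1
      exact ⟨g1, not_le.1 f2, g3, g4, g5⟩
  calc ∑ ρ ∈ Z, ‖deriv riemannZeta ρ‖ ^ (2 * lam)
      ≤ ∑ ρ ∈ Z, (3 * C3) ^ (2 * lam) * h (1 - conj ρ) :=
        Finset.sum_le_sum (fun ρ hρ => (href ρ hρ).2.2.2.2.2)
    _ = (3 * C3) ^ (2 * lam) * ∑ ρ ∈ Z, h (1 - conj ρ) := by rw [Finset.mul_sum]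
    _ = (3 * C3) ^ (2 * lam) * ∑ ρ ∈ Z.image (fun ρ : ℂ => 1 - conj ρ), h ρ := by
        rw [Finset.sum_image (fun x _ y _ hxy => MB_inj hxy)]
    _ ≤ (3 * C3) ^ (2 * lam) * (((Real.exp 1) ^ (2 * lam) * C1 + C2) * (T * Real.log T ^ ((lam + 1) ^ 2))) := by
        apply mul_le_mul_of_nonneg_left _ (by positivity)
        apply hbound
        intro ρ hρ
        obtain ⟨ρ', hρ', rfl⟩ := Finset.mem_image.1 hρ
        obtain ⟨g1, g2, g3, g4, g5, _⟩ := href ρ' hρ'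
        exact ⟨g1, g2, g3, g4, g5⟩
    _ = _ := by ring

theorem left_all (lam : ℝ) (h0 : 0 < lam) (h1 : lam ≤ 1 / 8) : ∃ C : ℝ, 1 ≤ C ∧
    ∀ (T : ℝ) (Z : Finset ℂ), 2 ≤ T →
    (∀ ρ ∈ Z, ρ.re ≤ 1 / 2 ∧ riemannZeta ρ = 0 ∧ 0 < ρ.re ∧ ρ.re < 1 ∧ 0 < ρ.im ∧ ρ.im ≤ T) →
    ∑ ρ ∈ Z, ‖deriv riemannZeta ρ‖ ^ (2 * lam) ≤ C * (T * Real.log T ^ ((lam + 1) ^ 2)) := by
  obtain ⟨C, T0, hC, hT0, hb⟩ := MB_block lam h0 h1
  exact heights (g := fun ρ => ‖deriv riemannZeta ρ‖ ^ (2 * lam)) (fun ρ => by positivity) (by positivity) hC hT0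
    (P := fun ρ => ρ.re ≤ 1 / 2) hb

end Pool.Agent.UH
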