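import Pool.Agent.Lib.MP_69b2e4_nt.UH.MA
import Pool.Agent.Lib.MP_69b2e4_nt.Mg.G002

/-! TASK MC. Zeros with `Re ρ ≤ 1/2` close to the critical line, `lam ≤ 1`. `q = 2 lam`. Put `m(ρ) = max (Im ρ) e` and `g ρ = ‖ζ'(ρ)‖^q` if `Re ρ ≤ 1/2 ∧ 1/2 - Re ρ ≤ A/log m(ρ)`, `g ρ = 0` otherwise. Block `[5T/4, 5T/2]`, `T ≥ e`: for `ρ` with `g ρ ≠ 0`, `m(ρ) = Im ρ =: γ ≥ T`, `deriv_left`:
`‖ζ'(ρ)‖ ≤ C γ^{1/2-Re ρ} ‖ζ'(1 - conj ρ)‖ ≤ C e^A ‖ζ'(1-conj ρ)‖` (`γ^{A/log γ} = e^A`). `ρ ↦ 1 - conj ρ` is injective and maps into the zeros of the same block with `1/2 ≤ Re < 1`: `block_right`. Then `heights` (with `P = fun _ => True`, this `g`, `κ = (lam+1)²`), and for `T ≥ 3`, `ρ ∈ Z`: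
`m(ρ) ≤ T` (`Im ρ ≤ T`, `e ≤ 3`), so `1/2 - Re ρ ≤ A/log T ≤ A/log m(ρ)`, i.e. `g ρ = ‖ζ'(ρ)‖^q`. -/

set_option autoImplicit false

namespace Pool.Agent.UH

open Complex MeasureTheory Finset Pool.Agent.GH
open scoped Real ComplexConjugate

private noncomputable def MC_m (ρ : ℂ) : ℝ := max ρ.im (Real.exp 1)

open Classical in
private noncomputable def MC_g (lam A : ℝ) (ρ : ℂ) : ℝ :=
  if ρ.re ≤ 1 / 2 ∧ 1 / 2 - ρ.re ≤ A / Real.log (MC_m ρ) then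
    ‖deriv riemannZeta ρ‖ ^ (2 * lam) else 0

private theorem MC_g_nonneg (lam A : ℝ) (ρ : ℂ) : 0 ≤ MC_g lam A ρ := by
  unfold MC_g
  split_ifs
  · exact Real.rpow_nonneg (norm_nonneg _) _
  · exact le_rfl

private theorem MC_log (ρ : ℂ) : 1 ≤ Real.log (MC_m ρ) := by
  have h1 : Real.exp 1 ≤ MC_m ρ := le_max_right _ _
  calc (1 : ℝ) = Real.log (Real.exp 1) := (Real.log_exp 1).symm
    _ ≤ Real.log (MC_m ρ) := Real.log_le_log (Real.exp_pos _) h1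

private theorem MC_inj : Function.Injective (fun ρ : ℂ => 1 - conj ρ) := by
  intro a b h
  have h1 : conj a = conj b := sub_right_injective h
  exact (starRingEnd ℂ).injective h1

theorem left_near (lam A : ℝ) (h0 : 0 < lam) (h1 : lam ≤ 1) (hA : 0 < A) : ∃ C : ℝ, 1 ≤ C ∧
    ∀ (T : ℝ) (Z : Finset ℂ), 3 ≤ T →
    (∀ ρ ∈ Z, ρ.re ≤ 1 / 2 ∧ 1 / 2 - ρ.re ≤ A / Real.log T ∧ riemannZeta ρ = 0 ∧ 0 < ρ.re ∧
      0 < ρ.im ∧ ρ.im ≤ T) →
    ∑ ρ ∈ Z, ‖deriv riemannZeta ρ‖ ^ (2 * lam) ≤ C * (T * Real.log T ^ ((lam + 1) ^ 2)) := by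
  classical
  obtain ⟨C1, T0, hC1, hT0, hblock⟩ := block_right lam h0 h1
  obtain ⟨C2, hC2, hder⟩ := deriv_left
  have hq : 0 ≤ 2 * lam := by linarith
  have hD : 0 ≤ C2 * Real.exp A := mul_nonneg (by linarith) (Real.exp_pos _).le
  have hDq : 0 ≤ (C2 * Real.exp A) ^ (2 * lam) := Real.rpow_nonneg hD _
  have hb : ∀ (T : ℝ) (Z : Finset ℂ), T0 ≤ T →
      (∀ ρ ∈ Z, (fun _ : ℂ => True) ρ ∧ riemannZeta ρ = 0 ∧ 0 < ρ.re ∧ ρ.re < 1 ∧
        5 * T / 4 ≤ ρ.im ∧ ρ.im ≤ 5 * T / 2) →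
      ∑ ρ ∈ Z, MC_g lam A ρ ≤
        ((C2 * Real.exp A) ^ (2 * lam) * C1) * (T * Real.log T ^ ((lam + 1) ^ 2)) := by
    intro T Z hT hZ
    have he1 : (1 : ℝ) ≤ Real.exp 1 := by
      have := Real.add_one_le_exp (1 : ℝ)
      linarith
    have hTe : Real.exp 1 ≤ T := hT0.trans hT
    have hT1 : 1 ≤ T := he1.trans hTe
    set F : Finset ℂ := Z.filter (fun ρ => ρ.re ≤ 1 / 2 ∧
      1 / 2 - ρ.re ≤ A / Real.log (MC_m ρ)) with hF
    have e1 : ∑ ρ ∈ Z, MC_g lam A ρ = ∑ ρ ∈ F, ‖deriv riemannZeta ρ‖ ^ (2 * lam) := by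
      rw [hF, Finset.sum_filter]
      refine Finset.sum_congr rfl (fun ρ _ => ?_)
      unfold MC_g
      rfl
    have e2 : ∀ ρ ∈ F, riemannZeta (1 - conj ρ) = 0 ∧ ‖deriv riemannZeta ρ‖ ^ (2 * lam) ≤
        (C2 * Real.exp A) ^ (2 * lam) * ‖deriv riemannZeta (1 - conj ρ)‖ ^ (2 * lam) := by
      intro ρ hρ
      rw [hF, Finset.mem_filter] at hρ
      obtain ⟨hρZ, hre, hcl⟩ := hρ
      obtain ⟨-, hz, hr0, hr1, hi1, hi2⟩ := hZ ρ hρZ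
      have him : T ≤ ρ.im := by linarith
      have him1 : 1 ≤ ρ.im := hT1.trans him
      have hm : MC_m ρ = ρ.im := max_eq_left (hTe.trans him)
      rw [hm] at hcl
      have hlog : 1 ≤ Real.log ρ.im := by
        have := MC_log ρ
        rwa [hm] at this
      obtain ⟨hz', hd⟩ := hder ρ hz hr0 hre him1
      refine ⟨hz', ?_⟩
      have hpow : ρ.im ^ (1 / 2 - ρ.re) ≤ Real.exp A := by
        calc ρ.im ^ (1 / 2 - ρ.re) ≤ ρ.im ^ (A / Real.log ρ.im) :=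
              Real.rpow_le_rpow_of_exponent_le him1 hcl
          _ = Real.exp A := by
              rw [Real.rpow_def_of_pos (by linarith : 0 < ρ.im)]
              congr 1
              field_simp
      have hd2 : ‖deriv riemannZeta ρ‖ ≤ C2 * Real.exp A * ‖deriv riemannZeta (1 - conj ρ)‖ :=
        hd.trans (mul_le_mul_of_nonneg_right (mul_le_mul_of_nonneg_left hpow (by linarith))
          (norm_nonneg _))
      calc ‖deriv riemannZeta ρ‖ ^ (2 * lam)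
          ≤ (C2 * Real.exp A * ‖deriv riemannZeta (1 - conj ρ)‖) ^ (2 * lam) :=
            Real.rpow_le_rpow (norm_nonneg _) hd2 hq
        _ = _ := Real.mul_rpow hD (norm_nonneg _)
    have e3 : ∑ ρ ∈ F, ‖deriv riemannZeta (1 - conj ρ)‖ ^ (2 * lam) =
        ∑ ρ ∈ F.image (fun ρ : ℂ => 1 - conj ρ), ‖deriv riemannZeta ρ‖ ^ (2 * lam) := by
      rw [Finset.sum_image (fun a _ b _ h => MC_inj h)]
    have e4 : ∑ ρ ∈ F.image (fun ρ : ℂ => 1 - conj ρ), ‖deriv riemannZeta ρ‖ ^ (2 * lam) ≤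
        C1 * (T * Real.log T ^ ((lam + 1) ^ 2)) := by
      refine hblock T _ hT ?_
      intro σ hσ
      rw [Finset.mem_image] at hσ
      obtain ⟨ρ, hρ, rfl⟩ := hσ
      have hz' := (e2 ρ hρ).1
      rw [hF, Finset.mem_filter] at hρ
      obtain ⟨hρZ, hre, hcl⟩ := hρ
      obtain ⟨-, hz, hr0, hr1, hi1, hi2⟩ := hZ ρ hρZ
      have hRe : (1 - conj ρ).re = 1 - ρ.re := by simp
      have hIm : (1 - conj ρ).im = ρ.im := by simp
      refine ⟨hz', ?_, ?_, ?_, ?_⟩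
      · rw [hRe]; linarith
      · rw [hRe]; linarith
      · rw [hIm]; exact hi1
      · rw [hIm]; exact hi2
    calc ∑ ρ ∈ Z, MC_g lam A ρ = ∑ ρ ∈ F, ‖deriv riemannZeta ρ‖ ^ (2 * lam) := e1
      _ ≤ ∑ ρ ∈ F, (C2 * Real.exp A) ^ (2 * lam) *
            ‖deriv riemannZeta (1 - conj ρ)‖ ^ (2 * lam) :=
          Finset.sum_le_sum (fun ρ hρ => (e2 ρ hρ).2)
      _ = (C2 * Real.exp A) ^ (2 * lam) *
            ∑ ρ ∈ F, ‖deriv riemannZeta (1 - conj ρ)‖ ^ (2 * lam) := by rw [Finset.mul_sum]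
      _ ≤ (C2 * Real.exp A) ^ (2 * lam) * (C1 * (T * Real.log T ^ ((lam + 1) ^ 2))) := by
          rw [e3]
          exact mul_le_mul_of_nonneg_left e4 hDq
      _ = _ := by ring
  obtain ⟨C', hC', hh⟩ := heights (fun ρ => MC_g_nonneg lam A ρ) (κ := (lam + 1) ^ 2)
    (C := (C2 * Real.exp A) ^ (2 * lam) * C1) (T0 := T0) (sq_nonneg _)
    (mul_nonneg hDq (by linarith)) hT0 (P := fun _ => True) hb
  refine ⟨C', hC', ?_⟩
  intro T Z hT hZ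
  have h3 : ∑ ρ ∈ Z, ‖deriv riemannZeta ρ‖ ^ (2 * lam) = ∑ ρ ∈ Z, MC_g lam A ρ := by
    refine Finset.sum_congr rfl (fun ρ hρ => ?_)
    obtain ⟨hre, hcl, hz, hr0, hi0, hiT⟩ := hZ ρ hρ
    have hmT : MC_m ρ ≤ T := by
      refine max_le hiT ?_
      have := Real.exp_one_lt_d9
      linarith
    have hm0 : 0 < MC_m ρ := (Real.exp_pos 1).trans_le (le_max_right _ _)
    have hl : Real.log (MC_m ρ) ≤ Real.log T := Real.log_le_log hm0 hmT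
    have hl1 := MC_log ρ
    have h4 : A / Real.log T ≤ A / Real.log (MC_m ρ) :=
      div_le_div_of_nonneg_left hA.le (by linarith) hl
    unfold MC_g
    rw [if_pos ⟨hre, hcl.trans h4⟩]
  rw [h3]
  refine hh T Z (by linarith) ?_
  intro ρ hρ
  obtain ⟨hre, hcl, hz, hr0, hi0, hiT⟩ := hZ ρ hρ
  exact ⟨trivial, hz, hr0, by linarith, hi0, hiT⟩

end Pool.Agent.UH
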