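import Pool.Agent.Lib.MP_69b2e4_nt.Mg.G005
import Pool.Agent.Lib.MP_69b2e4_nt.Mg.G006
import Pool.Agent.Lib.MP_69b2e4_nt.UH.F2

/-! TASK R7. The expectation for one frequency. `y = yT T`, `Y = log y > 0`, `u = p^{-1/2}`, `z = (1-2πiξ) log p/Y` (`Re z ≥ 0`), `bx y ξ p = u e^{-z}`, so `‖bx‖ ≤ u`.
`‖1 - e^{-z}‖ ≤ 2` and `≤ ‖z‖ ≤ (1 + 2π|ξ|) log p/Y ≤ 8(1+|ξ|) log p/Y`; with `d = dp T ξ p = min 2 (..)`: `‖1-e^{-z}‖ ≤ d ≤ 2`, `‖1-e^{-z}‖² ≤ 2d`. Hence `‖u - b‖² ≤ 2 d/p` and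
`‖(1+lam)u - b‖² ≤ (lam u + ‖u-b‖)² ≤ lam² u² + 2 lam u² d + 2 d u² ≤ (lam² + 4d)/p`. `full_b` with `al = lam`, `l' = lp`, `b = bx y ξ`:
exponent `≤ lam² ∑_{P} 1/p + 4 ∑_{p < M1} dp/p ≤ lam² (log log T + D) + 4 (C + 2 log(1+|ξ|))` (`sum_P`, `sum_dp`; `dp ≥ 0`). So the expectation is `≤ K' (1+|ξ|)^8 (log T)^{lam²}`.
(`‖1 - e^{-z}‖ ≤ ‖z‖` for `Re z ≥ 0`: mean value inequality along the segment, or `1 - e^{-z} = ∫_0^1 z e^{-tz} dt`; `Y > 0` for `T ≥ e`, `BGood.T_ge`.) -/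

set_option autoImplicit false

namespace Pool.Agent.UH

open Complex MeasureTheory Finset Pool.Agent.GH
open scoped Real ComplexConjugate

private theorem R7_exp_sub_one {z : ℂ} (hz : z.re ≤ 0) : ‖cexp z - 1‖ ≤ ‖z‖ := by
  have h := Convex.norm_image_sub_le_of_norm_deriv_le (𝕜 := ℂ) (f := cexp) (C := 1)
    (s := {c : ℂ | c.re ≤ 0}) (x := 0) (y := z) (fun x _ => Complex.differentiable_exp x)
    (fun x hx => by
      rw [Complex.deriv_exp, Complex.norm_exp, Real.exp_le_one_iff]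
      exact hx) (convex_halfSpace_re_le 0) (by simp) hz
  simpa using h

private theorem R7_one {lam : ℝ} (hlam : 0 ≤ lam) {y : ℝ} (hy : 1 < y) (ξ : ℝ) {p : ℕ}
    (hp : 1 ≤ p) :
    ‖bx y ξ p‖ ≤ (p : ℝ) ^ (-(1 / 2) : ℝ) ∧
    ‖((((1 + lam) * (p : ℝ) ^ (-(1 / 2) : ℝ) : ℝ)) : ℂ) - bx y ξ p‖ ^ 2 ≤
      (lam ^ 2 + (2 * lam + 2) * min 2 (8 * (1 + |ξ|) * (Real.log p / Real.log y))) * (1 / (p : ℝ)) := by
  have hp1 : (1 : ℝ) ≤ p := by exact_mod_cast hp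
  have hp0 : (0 : ℝ) < p := by linarith
  have hL : 0 ≤ Real.log p / Real.log y := div_nonneg (Real.log_nonneg hp1) (Real.log_pos hy).le
  set L : ℝ := Real.log p / Real.log y with hLdef
  set u : ℝ := (p : ℝ) ^ (-(1 / 2) : ℝ) with hu
  have hu0 : 0 ≤ u := by positivity
  have hu2 : u ^ 2 = 1 / (p : ℝ) := by
    rw [hu, ← Real.rpow_natCast, ← Real.rpow_mul hp0.le]
    norm_num
    rw [Real.rpow_neg_one]
  set z : ℂ := -((1 - 2 * π * ξ * I) * (L : ℝ)) with hz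
  have hzre : z.re = -L := by
    rw [hz]
    simp
  have hbx : bx y ξ p = (u : ℂ) * cexp z := rfl
  have hez : ‖cexp z‖ ≤ 1 := by
    rw [Complex.norm_exp, Real.exp_le_one_iff, hzre]
    linarith
  have hnz : ‖z‖ ≤ 8 * (1 + |ξ|) * L := by
    rw [hz, norm_neg, norm_mul, Complex.norm_real, Real.norm_of_nonneg hL]
    refine mul_le_mul_of_nonneg_right ?_ hL
    refine (norm_sub_le _ _).trans ?_
    rw [norm_one, norm_mul, norm_mul, norm_mul, Complex.norm_I, Complex.norm_real,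
      Complex.norm_real, Real.norm_of_nonneg Real.pi_pos.le, mul_one, Complex.norm_ofNat,
      Real.norm_eq_abs]
    have := Real.pi_lt_four
    have h1 := abs_nonneg ξ
    nlinarith
  set d : ℝ := min 2 (8 * (1 + |ξ|) * L) with hd
  have hd0 : 0 ≤ d := le_min zero_le_two (by positivity)
  have hd2 : d ≤ 2 := min_le_left _ _
  have h1d : ‖1 - cexp z‖ ≤ d := by
    refine le_min ?_ ?_
    · refine (norm_sub_le _ _).trans ?_
      rw [norm_one]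
      linarith
    · rw [norm_sub_rev]
      exact (R7_exp_sub_one (by rw [hzre]; linarith)).trans hnz
  constructor
  · rw [hbx, norm_mul, Complex.norm_real, Real.norm_of_nonneg hu0]
    exact mul_le_of_le_one_right hu0 hez
  · have e : ((((1 + lam) * u : ℝ)) : ℂ) - bx y ξ p = (u : ℂ) * ((lam : ℂ) + (1 - cexp z)) := by
      rw [hbx]
      push_cast
      ring
    rw [e, norm_mul, Complex.norm_real, Real.norm_of_nonneg hu0, mul_pow, hu2, mul_comm]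
    refine mul_le_mul_of_nonneg_right ?_ (by positivity)
    have h2 : ‖(lam : ℂ) + (1 - cexp z)‖ ≤ lam + d := by
      refine (norm_add_le _ _).trans ?_
      rw [Complex.norm_real, Real.norm_of_nonneg hlam]
      linarith
    calc ‖(lam : ℂ) + (1 - cexp z)‖ ^ 2 ≤ (lam + d) ^ 2 := by gcongr
      _ ≤ lam ^ 2 + (2 * lam + 2) * d := by nlinarith

theorem exp_xi : ∃ C0 : ℝ, ∀ D : ℝ, ∃ K T0 : ℝ, 1 ≤ K ∧ ∀ {S : BS} {lam C : ℝ} {N0 : ℕ}, C0 ≤ C →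
    T0 ≤ S.T → BGood S lam C N0 D → ∀ ξ : ℝ,
    ∫ w, ‖Zt (Nat.primesBelow (M1 S.T)) (1 / 2) w‖ ^ 2 *
      (∏ p ∈ Nat.primesBelow (M1 S.T), ‖1 - bx (yT S.T) ξ p * X p w‖ ^ 2) *
      S.Wp lam (nX 0 w) ^ 2 ∂mu ≤ K * (1 + |ξ|) ^ 8 * Real.log S.T ^ (lam ^ 2) := by
  classical
  obtain ⟨C0, K1, -, hK1, hfull⟩ := full_b
  obtain ⟨C2, T0, hC2, hdp⟩ := sum_dp
  refine ⟨C0, fun D => ⟨K1 * Real.exp (|D| + 4 * C2), T0, ?_, ?_⟩⟩
  · have : 1 ≤ Real.exp (|D| + 4 * C2) := Real.one_le_exp (by positivity)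
    nlinarith
  intro S lam C N0 hC hT hS ξ
  have hlam := hS.lam_pos
  have hlam1 := hS.lam_lt
  have hT1 : 1 < S.T := lt_of_lt_of_le (by simp) hS.T_ge
  have hlogT : 0 < Real.log S.T := Real.log_pos hT1
  have hy : 1 < yT S.T := by
    unfold yT
    exact Real.one_lt_rpow hT1 (by norm_num)
  have hpr : ∀ p ∈ Nat.primesBelow (M1 S.T), 1 ≤ p := fun p hp =>
    (Nat.prime_of_mem_primesBelow hp).one_lt.le
  have key := hfull hC hS (bx (yT S.T) ξ) lam (fun j => lp lam (S.l j))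
    (fun p hp => (R7_one hlam.le hy ξ (hpr p hp)).1)
    (by rw [abs_of_pos hlam]; exact hlam1.le)
    (fun j hj => by
      have h1 := (lp_bounds hlam hlam1 (hS.l_big j hj).2).1
      have h2 : 0 ≤ cc lam * S.l j := by
        unfold cc
        have : 0 ≤ min lam (1 - lam) := le_min hlam.le (by linarith)
        positivity
      linarith)
  refine key.trans ?_
  rw [mul_assoc, mul_assoc]
  refine mul_le_mul_of_nonneg_left ?_ (by linarith)
  have hPsub : S.P ⊆ Nat.primesBelow (M1 S.T) := by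
    intro p hp
    unfold BS.P at hp
    rw [Finset.mem_biUnion] at hp
    obtain ⟨j, hj, hpj⟩ := hp
    have := hS.prime j (by rw [Finset.mem_range] at hj; omega) p hpj
    exact Nat.mem_primesBelow.2 ⟨this.2.1, this.1⟩
  have hdnn : ∀ p ∈ Nat.primesBelow (M1 S.T), 0 ≤ dp S.T ξ p / p := by
    intro p hp
    unfold dp
    have h1 : 0 ≤ Real.log p / Real.log (yT S.T) :=
      div_nonneg (Real.log_natCast_nonneg p) (Real.log_pos hy).le
    have : 0 ≤ min 2 (8 * (1 + |ξ|) * (Real.log p / Real.log (yT S.T))) :=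
      le_min zero_le_two (by positivity)
    positivity
  have e1 : ∑ p ∈ S.P, ‖((((1 + lam) * (p : ℝ) ^ (-(1 / 2) : ℝ) : ℝ)) : ℂ) - bx (yT S.T) ξ p‖ ^ 2 ≤
      lam ^ 2 * ∑ p ∈ S.P, 1 / (p : ℝ) + 4 * ∑ p ∈ S.P, dp S.T ξ p / p := by
    rw [Finset.mul_sum, Finset.mul_sum, ← Finset.sum_add_distrib]
    refine Finset.sum_le_sum fun p hp => ?_
    refine (R7_one hlam.le hy ξ (hpr p (hPsub hp))).2.trans ?_
    have h1 := hdnn p (hPsub hp)
    have h2 : min 2 (8 * (1 + |ξ|) * (Real.log p / Real.log (yT S.T))) * (1 / (p : ℝ)) =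
        dp S.T ξ p / p := by
      unfold dp
      ring
    rw [add_mul, mul_assoc (2 * lam + 2), h2]
    nlinarith
  have e2 : ∑ p ∈ Nat.primesBelow (M1 S.T) \ S.P,
      ‖((((p : ℝ) ^ (-(1 / 2) : ℝ) : ℝ)) : ℂ) - bx (yT S.T) ξ p‖ ^ 2 ≤
      4 * ∑ p ∈ Nat.primesBelow (M1 S.T) \ S.P, dp S.T ξ p / p := by
    rw [Finset.mul_sum]
    refine Finset.sum_le_sum fun p hp => ?_
    have hp' := (Finset.mem_sdiff.1 hp).1
    have h0 := (R7_one (le_refl (0 : ℝ)) hy ξ (hpr p hp')).2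
    rw [add_zero, one_mul] at h0
    refine h0.trans ?_
    have h1 := hdnn p hp'
    have h2 : min 2 (8 * (1 + |ξ|) * (Real.log p / Real.log (yT S.T))) * (1 / (p : ℝ)) =
        dp S.T ξ p / p := by
      unfold dp
      ring
    rw [add_mul, mul_assoc (2 * (0 : ℝ) + 2), h2]
    nlinarith
  have e3 : ∑ p ∈ Nat.primesBelow (M1 S.T) \ S.P, dp S.T ξ p / p + ∑ p ∈ S.P, dp S.T ξ p / p =
      ∑ p ∈ Nat.primesBelow (M1 S.T), dp S.T ξ p / p := Finset.sum_sdiff hPsub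
  have e4 := hdp S.T ξ hT
  have e5 := sum_P hS
  have hD := hS.D_nonneg
  have hξ : 0 < 1 + |ξ| := by positivity
  have e6 : (∑ p ∈ S.P, ‖((((1 + lam) * (p : ℝ) ^ (-(1 / 2) : ℝ) : ℝ)) : ℂ) -
      bx (yT S.T) ξ p‖ ^ 2) + ∑ p ∈ Nat.primesBelow (M1 S.T) \ S.P,
      ‖((((p : ℝ) ^ (-(1 / 2) : ℝ) : ℝ)) : ℂ) - bx (yT S.T) ξ p‖ ^ 2 ≤
      (|D| + 4 * C2) + (8 * Real.log (1 + |ξ|) + Real.log (Real.log S.T) * lam ^ 2) := by
    rw [abs_of_nonneg hD]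
    have h1 : lam ^ 2 * ∑ p ∈ S.P, 1 / (p : ℝ) ≤ lam ^ 2 * (Real.log (Real.log S.T) + D) :=
      mul_le_mul_of_nonneg_left e5 (by positivity)
    have h2 : lam ^ 2 * D ≤ D := by
      have : lam ^ 2 ≤ 1 := by nlinarith
      nlinarith
    linarith
  refine (Real.exp_le_exp.2 e6).trans ?_
  rw [Real.exp_add, Real.exp_add (8 * Real.log (1 + |ξ|))]
  refine mul_le_mul_of_nonneg_left (le_of_eq ?_) (Real.exp_pos _).le
  rw [Real.rpow_def_of_pos hlogT]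
  congr 1
  rw [show (8 : ℝ) * Real.log (1 + |ξ|) = Real.log ((1 + |ξ|) ^ 8) by
    rw [Real.log_pow]; norm_num]
  exact Real.exp_log (by positivity)

end Pool.Agent.UH
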